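import Pool.Agent.Lib.MP_bf61d2_nt.MV59.Stmts
import Pool.Agent.Lib.MP_bf61d2_nt.MV59.PlanchR

set_option autoImplicit false

/-!
Plancherel for the summatory function of a Dirichlet series.
-/

namespace Pool.Agent.Lib.MP_bf61d2_nt.MV59

open MeasureTheory Set Filter Topology FourierTransform

lemma AA_bound {a : ℕ → ℂ} {c' : ℝ} (hc' : 0 < c') (h : LSeriesSummable a c') :
    ∃ C : ℝ, 0 ≤ C ∧ ∀ u : ℝ, 0 ≤ u → ‖AA a u‖ ≤ C * u ^ c' := by
  have hs : Summable fun n => ‖LSeries.term a c' n‖ := h.norm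
  refine ⟨∑' n, ‖LSeries.term a c' n‖, tsum_nonneg fun n => norm_nonneg _, fun u hu => ?_⟩
  have h1 : ‖AA a u‖ ≤ ∑ k ∈ Finset.Icc 1 ⌊u⌋₊, ‖a k‖ := norm_sum_le _ _
  have h2 : ∀ k ∈ Finset.Icc 1 ⌊u⌋₊, ‖a k‖ ≤ ‖LSeries.term a c' k‖ * u ^ c' := by
    intro k hk
    rw [Finset.mem_Icc] at hk
    have hk0 : k ≠ 0 := by omega
    have hkpos : (0 : ℝ) < k := by exact_mod_cast Nat.pos_of_ne_zero hk0
    have hku : (k : ℝ) ≤ u := (Nat.le_floor_iff hu).mp hk.2
    rw [LSeries.norm_term_eq, if_neg hk0]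
    simp only [Complex.ofReal_re]
    have h3 : (k : ℝ) ^ c' ≤ u ^ c' := Real.rpow_le_rpow hkpos.le hku hc'.le
    have h4 : (0 : ℝ) < (k : ℝ) ^ c' := Real.rpow_pos_of_pos hkpos _
    calc ‖a k‖ = ‖a k‖ / (k : ℝ) ^ c' * (k : ℝ) ^ c' := by field_simp
      _ ≤ ‖a k‖ / (k : ℝ) ^ c' * u ^ c' := by gcongr
  calc ‖AA a u‖ ≤ ∑ k ∈ Finset.Icc 1 ⌊u⌋₊, ‖a k‖ := h1
    _ ≤ ∑ k ∈ Finset.Icc 1 ⌊u⌋₊, ‖LSeries.term a c' k‖ * u ^ c' := Finset.sum_le_sum h2
    _ = (∑ k ∈ Finset.Icc 1 ⌊u⌋₊, ‖LSeries.term a c' k‖) * u ^ c' := by rw [Finset.sum_mul]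
    _ ≤ _ := by
      have h5 : (0 : ℝ) ≤ u ^ c' := Real.rpow_nonneg hu _
      gcongr
      exact hs.sum_le_tsum _ fun n _ => norm_nonneg _

lemma measurable_AA (a : ℕ → ℂ) : Measurable (AA a) := by
  have h1 : Measurable fun n : ℕ => ∑ k ∈ Finset.Icc 1 n, a k := measurable_from_top
  exact h1.comp Nat.measurable_floor

/-- The function on the logarithmic scale. -/
noncomputable def hh (a : ℕ → ℂ) (c : ℝ) (v : ℝ) : ℂ :=
  (Ioi (0 : ℝ)).indicator (fun v => AA a (Real.exp v) * (Real.exp (-(c * v)) : ℝ)) v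

lemma measurable_hh (a : ℕ → ℂ) (c : ℝ) : Measurable (hh a c) := by
  refine Measurable.indicator ?_ measurableSet_Ioi
  refine ((measurable_AA a).comp Real.measurable_exp).mul ?_
  fun_prop

lemma norm_hh_le {a : ℕ → ℂ} {c c' C : ℝ} (hC : ∀ u : ℝ, 0 ≤ u → ‖AA a u‖ ≤ C * u ^ c') (v : ℝ) :
    ‖hh a c v‖ ≤ (Ioi (0 : ℝ)).indicator (fun v => C * Real.exp (-((c - c') * v))) v := by
  unfold hh
  rw [norm_indicator_eq_indicator_norm]
  refine indicator_le_indicator ?_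
  rw [norm_mul, Complex.norm_real, Real.norm_of_nonneg (Real.exp_pos _).le]
  have h1 := hC (Real.exp v) (Real.exp_pos _).le
  rw [← Real.exp_mul] at h1
  calc ‖AA a (Real.exp v)‖ * Real.exp (-(c * v)) ≤ C * Real.exp (v * c') * Real.exp (-(c * v)) := by
        gcongr
    _ = C * Real.exp (-((c - c') * v)) := by
        rw [mul_assoc, ← Real.exp_add]; ring_nf

lemma integrable_ind {b C : ℝ} (hb : 0 < b) :
    Integrable ((Ioi (0 : ℝ)).indicator (fun v => C * Real.exp (-(b * v)))) := by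
  rw [integrable_indicator_iff measurableSet_Ioi]
  have := (exp_neg_integrableOn_Ioi 0 hb).const_mul C
  refine IntegrableOn.congr_fun this (fun v _ => ?_) measurableSet_Ioi
  ring_nf

lemma integrable_hh {a : ℕ → ℂ} {c c' : ℝ} (hc' : 0 < c') (hc : c' < c)
    (h : LSeriesSummable a c') : Integrable (hh a c) := by
  obtain ⟨C, hC0, hC⟩ := AA_bound hc' h
  refine (integrable_ind (C := C) (sub_pos.mpr hc)).mono' (measurable_hh a c).aestronglyMeasurable ?_
  exact Eventually.of_forall fun v => norm_hh_le hC v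

lemma memLp_hh {a : ℕ → ℂ} {c c' : ℝ} (hc' : 0 < c') (hc : c' < c)
    (h : LSeriesSummable a c') : MemLp (hh a c) 2 volume := by
  obtain ⟨C, hC0, hC⟩ := AA_bound hc' h
  rw [memLp_two_iff_integrable_sq_norm (measurable_hh a c).aestronglyMeasurable]
  refine (integrable_ind (C := C ^ 2) (mul_pos two_pos (sub_pos.mpr hc))).mono'
    ((measurable_hh a c).norm.pow_const 2).aestronglyMeasurable ?_
  refine Eventually.of_forall fun v => ?_
  rw [Real.norm_of_nonneg (by positivity)]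
  have h1 := norm_hh_le (c := c) hC v
  by_cases hv : v ∈ Ioi (0 : ℝ)
  · rw [indicator_of_mem hv] at h1 ⊢
    calc ‖hh a c v‖ ^ 2 ≤ (C * Real.exp (-((c - c') * v))) ^ 2 := by gcongr
      _ = _ := by
        rw [mul_pow, ← Real.exp_nat_mul]
        congr 2
        push_cast
        ring
  · rw [indicator_of_notMem hv] at h1 ⊢
    have h2 : ‖hh a c v‖ = 0 := le_antisymm h1 (norm_nonneg _)
    rw [h2]
    norm_num

lemma fourier_hh {a : ℕ → ℂ} {c c' : ℝ} (hc' : 0 < c') (hc : c' < c)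
    (h : LSeriesSummable a c') (ξ : ℝ) :
    𝓕 (hh a c) ξ = LSeries a (c + (2 * Real.pi * ξ : ℝ) * Complex.I) /
      (c + (2 * Real.pi * ξ : ℝ) * Complex.I) := by
  obtain ⟨C, hC0, hC⟩ := AA_bound hc' h
  set s : ℂ := c + (2 * Real.pi * ξ : ℝ) * Complex.I with hs
  have hsre : s.re = c := by simp [hs]
  have hs0 : s ≠ 0 := by
    intro h0
    rw [h0] at hsre
    simp at hsre
    linarith
  have hsum : LSeriesSummable a s := h.of_re_le_re (by rw [hsre]; simpa using hc.le)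
  have hO : (fun n ↦ ∑ k ∈ Finset.Icc 1 n, a k) =O[atTop] fun n ↦ (n : ℝ) ^ c' := by
    refine Asymptotics.IsBigO.of_bound C (Eventually.of_forall fun n => ?_)
    have h1 := hC n (Nat.cast_nonneg n)
    unfold AA at h1
    rw [Nat.floor_natCast] at h1
    rwa [Real.norm_of_nonneg (by positivity)]
  have h1 := LSeries_eq_mul_integral a hc'.le (by rw [hsre]; exact hc) hsum hO
  have h2 : 𝓕 (hh a c) ξ = ∫ t in Ioi (1 : ℝ), AA a t * (t : ℂ) ^ (-(s + 1)) := by
    rw [Real.fourier_eq', ← Real.exp_zero, ← integral_comp_exp_Ioi, ← integral_indicator measurableSet_Ioi]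
    congr 1
    ext v
    unfold hh
    by_cases hv : v ∈ Ioi (0 : ℝ)
    · rw [indicator_of_mem hv, indicator_of_mem hv]
      have e1 : ((Real.exp v : ℝ) : ℂ) ^ (-(s + 1)) = Complex.exp (v * (-(s + 1))) := by
        rw [Complex.cpow_def_of_ne_zero (by exact_mod_cast (Real.exp_pos v).ne'), ← Complex.ofReal_log (Real.exp_pos v).le,
          Real.log_exp]
      rw [e1]
      simp only [smul_eq_mul, Complex.real_smul]
      rw [Complex.ofReal_exp, Complex.ofReal_exp]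
      have e2 : Complex.exp ((-(c * v) : ℝ) : ℂ) * Complex.exp (((-2 * Real.pi * inner ℝ v ξ : ℝ) : ℂ) * Complex.I)
          = Complex.exp (v : ℂ) * Complex.exp (v * (-(s + 1))) := by
        rw [← Complex.exp_add, ← Complex.exp_add]
        congr 1
        have : (inner ℝ v ξ : ℝ) = v * ξ := by simp [mul_comm]
        rw [this, hs]
        push_cast
        ring
      calc _ = AA a (Real.exp v) * (Complex.exp ((-(c * v) : ℝ) : ℂ) *
            Complex.exp (((-2 * Real.pi * inner ℝ v ξ : ℝ) : ℂ) * Complex.I)) := by push_cast; ring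
        _ = _ := by rw [e2]; ring
    · rw [indicator_of_notMem hv, indicator_of_notMem hv, smul_zero]
  rw [h2, h1]
  unfold AA
  field_simp

theorem pl : StPL := by
  intro a c c' hc' hc h
  have h1 := integrable_hh hc' hc h
  have h2 := memLp_hh hc' hc h
  have h3 := plancherel h1 h2
  have hc0 : 0 < c := hc'.trans hc
  have e1 : ∀ ξ : ℝ, ‖𝓕 (hh a c) ξ‖ ^ 2 =
      ‖LSeries a (c + ((2 * Real.pi * ξ : ℝ) : ℂ) * Complex.I)‖ ^ 2 / (c ^ 2 + (2 * Real.pi * ξ) ^ 2) := by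
    intro ξ
    rw [fourier_hh hc' hc h, norm_div, div_pow]
    congr 1
    rw [← Complex.normSq_eq_norm_sq, Complex.normSq_add_mul_I]
  have hg : Integrable fun ξ : ℝ =>
      ‖LSeries a (c + ((2 * Real.pi * ξ : ℝ) : ℂ) * Complex.I)‖ ^ 2 / (c ^ 2 + (2 * Real.pi * ξ) ^ 2) := by
    have := (memLp_two_iff_integrable_sq_norm (fourier_memLp h1 h2).1).mp (fourier_memLp h1 h2)
    exact this.congr (Eventually.of_forall e1)
  have hpi : (2 * Real.pi) ≠ 0 := by positivity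
  have hg2 : Integrable fun t : ℝ => ‖LSeries a (c + t * Complex.I)‖ ^ 2 / (c ^ 2 + t ^ 2) := by
    have := (integrable_comp_mul_left_iff (fun t : ℝ =>
      ‖LSeries a (c + (t : ℂ) * Complex.I)‖ ^ 2 / (c ^ 2 + t ^ 2)) hpi).mp hg
    exact this
  have e2 : ∫ ξ : ℝ, ‖𝓕 (hh a c) ξ‖ ^ 2 =
      (2 * Real.pi)⁻¹ * ∫ t : ℝ, ‖LSeries a (c + t * Complex.I)‖ ^ 2 / (c ^ 2 + t ^ 2) := by
    simp_rw [e1]
    rw [Measure.integral_comp_mul_left (fun t : ℝ =>
      ‖LSeries a (c + (t : ℂ) * Complex.I)‖ ^ 2 / (c ^ 2 + t ^ 2)), abs_of_pos (by positivity), smul_eq_mul]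
  have e3 : ∀ v : ℝ, ‖hh a c v‖ ^ 2 = (Ioi (0 : ℝ)).indicator (fun v => Real.exp v •
      (‖AA a (Real.exp v)‖ ^ 2 * Real.exp v ^ (-(2 * c + 1)))) v := by
    intro v
    unfold hh
    by_cases hv : v ∈ Ioi (0 : ℝ)
    · rw [indicator_of_mem hv, indicator_of_mem hv, norm_mul, Complex.norm_real,
        Real.norm_of_nonneg (Real.exp_pos _).le, mul_pow, smul_eq_mul, ← Real.exp_mul, ← Real.exp_nat_mul,
        mul_left_comm, ← Real.exp_add]
      congr 2
      push_cast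
      ring
    · rw [indicator_of_notMem hv, indicator_of_notMem hv]
      norm_num
  have hi : IntegrableOn (fun u : ℝ => ‖AA a u‖ ^ 2 * u ^ (-(2 * c + 1))) (Ioi 1) := by
    have h5 := integrableOn_comp_exp_Ioi (fun u : ℝ => ‖AA a u‖ ^ 2 * u ^ (-(2 * c + 1))) 0
    rw [Real.exp_zero] at h5
    rw [← h5, ← integrable_indicator_iff measurableSet_Ioi]
    exact ((memLp_two_iff_integrable_sq_norm h2.1).mp h2).congr (Eventually.of_forall e3)
  refine ⟨hi, hg2, ?_⟩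
  rw [← e2, h3]
  simp_rw [e3]
  rw [integral_indicator measurableSet_Ioi, integral_comp_exp_Ioi (fun u : ℝ => ‖AA a u‖ ^ 2 * u ^ (-(2 * c + 1))), Real.exp_zero]

end Pool.Agent.Lib.MP_bf61d2_nt.MV59
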