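import Pool.Agent.Lib.MP_bf61d2_nt.MV59.PW69a
import Pool.Agent.Lib.MP_bf61d2_nt.MV59.Stmts2

set_option autoImplicit false

/-!
MEAN VALUES, module PW, second part: the pointwise bound.
-/

namespace Pool.Agent.Lib.MP_bf61d2_nt.MV59

open MeasureTheory Set Filter Topology

namespace PW69

variable {K : Type*} [Field K] [NumberField K]

/-- The coefficients. -/
noncomputable def an (W : WeierstrassCurve K) (n : ℕ) : ℂ := (W.LFunction n : ℂ)

/-- The L-function is at most `G` at all scales down to `1 / log x`. -/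
def Hyp (W : WeierstrassCurve K) (x G : ℝ) : Prop :=
  ∀ δ : ℝ, 1 / Real.log x ≤ δ → δ ≤ 1 → ∀ t : ℝ, |t| ≤ δ ^ (-(5 : ℝ)) →
    ‖W.LSeries (((3 / 2 + δ : ℝ) : ℂ) + t * Complex.I)‖ ≤ G

/-- The absolute series, truncated. -/
lemma sum_abs_le (hAB : StAB K) : ∃ C : ℝ, 0 ≤ C ∧ ∀ (W : WeierstrassCurve K) (y : ℝ), 3 ≤ y →
    ∑ n ∈ Finset.Icc 1 ⌊y⌋₊, ‖an W n‖ * (n : ℝ) ^ (-(3 / 2) : ℝ) ≤ C * Real.log y ^ 2 := by
  obtain ⟨C, hC⟩ := hAB
  refine ⟨Real.exp 1 * max C 0, by positivity, fun W y hy => ?_⟩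
  have hy0 : 0 < y := by linarith
  have hlog : 1 ≤ Real.log y := by
    rw [Real.le_log_iff_exp_le hy0]
    linarith [Real.exp_one_lt_d9]
  have hlog0 : 0 < Real.log y := by linarith
  set δ : ℝ := 1 / Real.log y with hδ
  have hδ0 : 0 < δ := by positivity
  have hδ1 : δ ≤ 1 := by rw [hδ, div_le_one hlog0]; exact hlog
  obtain ⟨hs, hle⟩ := hC W δ hδ0 hδ1
  have h1 : ∀ n ∈ Finset.Icc 1 ⌊y⌋₊, ‖an W n‖ * (n : ℝ) ^ (-(3 / 2) : ℝ) ≤
      Real.exp 1 * (|(W.LFunction n : ℝ)| * (n : ℝ) ^ (-(3 / 2 + δ))) := by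
    intro n hn
    rw [Finset.mem_Icc] at hn
    have hn0 : (0 : ℝ) < n := by exact_mod_cast (show 0 < n by omega)
    have hny : (n : ℝ) ≤ y := (Nat.le_floor_iff hy0.le).mp hn.2
    have e1 : ‖an W n‖ = |(W.LFunction n : ℝ)| := by rw [an, Complex.norm_intCast]
    have e2 : (n : ℝ) ^ (-(3 / 2) : ℝ) = (n : ℝ) ^ δ * (n : ℝ) ^ (-(3 / 2 + δ)) := by
      rw [← Real.rpow_add hn0]
      congr 1
      ring
    have e3 : (n : ℝ) ^ δ ≤ Real.exp 1 := by
      calc (n : ℝ) ^ δ ≤ y ^ δ := Real.rpow_le_rpow hn0.le hny hδ0.le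
        _ = Real.exp 1 := by
          rw [Real.rpow_def_of_pos hy0, hδ, mul_one_div_cancel hlog0.ne']
    rw [e1, e2]
    have h3 : 0 ≤ |(W.LFunction n : ℝ)| * (n : ℝ) ^ (-(3 / 2 + δ)) := by positivity
    calc _ = (n : ℝ) ^ δ * (|(W.LFunction n : ℝ)| * (n : ℝ) ^ (-(3 / 2 + δ))) := by ring
      _ ≤ _ := mul_le_mul_of_nonneg_right e3 h3
  refine (Finset.sum_le_sum h1).trans ?_
  rw [← Finset.mul_sum, mul_assoc]
  refine mul_le_mul_of_nonneg_left ?_ (Real.exp_pos _).le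
  calc _ ≤ ∑' n : ℕ, |(W.LFunction n : ℝ)| * (n : ℝ) ^ (-(3 / 2 + δ)) :=
        hs.sum_le_tsum _ fun n _ => by positivity
    _ ≤ C / δ ^ 2 := hle
    _ = C * Real.log y ^ 2 := by rw [hδ]; field_simp
    _ ≤ _ := mul_le_mul_of_nonneg_right (le_max_left _ _) (by positivity)

lemma intervalIntegrable_J (a : ℕ → ℂ) {u v : ℝ} (hu : 1 ≤ u) (huv : u ≤ v) :
    IntervalIntegrable (fun w : ℝ => ‖AA a w‖ * w ^ (-(5 / 2) : ℝ)) volume u v := by
  rw [intervalIntegrable_iff_integrableOn_Icc_of_le huv]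
  exact (integrableOn_J a v).mono_set (Icc_subset_Icc_left hu)

/-- One dyadic block. -/
lemma block (hSQ : StSQ K) : ∃ C : ℝ, 0 ≤ C ∧ ∀ (W : WeierstrassCurve K) (x G z : ℝ), 3 ≤ x →
    1 ≤ G → Hyp W x G → Real.exp 1 ≤ z → z ≤ x →
    ∫ w in z..(z ^ 2), ‖AA (an W) w‖ * w ^ (-(5 / 2) : ℝ) ≤ C * G := by
  obtain ⟨C, hC⟩ := hSQ
  set C' : ℝ := max C 0 with hC'
  have hC'0 : 0 ≤ C' := le_max_right _ _
  refine ⟨Real.exp 4 * C' + 1, by positivity, fun W x G z hx hG hH hz hzx => ?_⟩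
  have hz0 : 0 < z := lt_of_lt_of_le (Real.exp_pos _) hz
  have hz1 : 1 ≤ z := by linarith [Real.add_one_le_exp (1 : ℝ)]
  have hlz : 1 ≤ Real.log z := (Real.le_log_iff_exp_le hz0).mpr hz
  have hlz0 : 0 < Real.log z := by linarith
  have hlx : Real.log z ≤ Real.log x := Real.log_le_log hz0 hzx
  set δ : ℝ := 1 / Real.log z with hδ
  have hδ0 : 0 < δ := by positivity
  have hδ1 : δ ≤ 1 := by rw [hδ, div_le_one hlz0]; exact hlz
  have hδx : 1 / Real.log x ≤ δ := one_div_le_one_div_of_le hlz0 hlx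
  have hG0 : 0 < G := by linarith
  obtain ⟨hi, hle⟩ := hC W δ hδ0 hδ1 G hG0.le (hH δ hδx hδ1)
  set F : ℝ → ℝ := fun u => ‖AA (fun n => (W.LFunction n : ℂ)) u‖ ^ 2 * Real.log u ^ 2 *
      u ^ (-(4 + 2 * δ)) with hF
  have hF0 : ∀ u ∈ Ioi (1 : ℝ), 0 ≤ F u := fun u hu => by
    have : (0 : ℝ) < u := lt_trans one_pos hu
    simp only [hF]
    positivity
  have hzz : z ≤ z ^ 2 := by nlinarith
  have hpt : ∀ w ∈ Ioc z (z ^ 2), ‖AA (an W) w‖ * w ^ (-(5 / 2) : ℝ) ≤
      Real.exp 4 / (2 * G * Real.log z) * F w + G / (2 * Real.log z) * w⁻¹ := by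
    intro w hw
    have hw0 : 0 < w := hz0.trans hw.1
    have hlw : Real.log z ≤ Real.log w := Real.log_le_log hz0 hw.1.le
    have hlw0 : 0 < Real.log w := by linarith
    have e1 : Real.exp (-4) ≤ w ^ (-(2 * δ)) := by
      rw [Real.rpow_def_of_pos hw0, Real.exp_le_exp]
      have h1 : Real.log w ≤ 2 * Real.log z := by
        have := Real.log_le_log hw0 hw.2
        rwa [Real.log_pow, Nat.cast_ofNat] at this
      have h2 : Real.log w * (2 * δ) ≤ 2 * Real.log z * (2 * δ) :=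
        mul_le_mul_of_nonneg_right h1 (by positivity)
      have h3 : 2 * Real.log z * (2 * δ) = 4 := by rw [hδ]; field_simp; norm_num
      linarith
    have e2 : ‖AA (an W) w‖ ^ 2 * w ^ (-(4 : ℝ)) ≤ Real.exp 4 / Real.log z ^ 2 * F w := by
      have h1 : F w = ‖AA (an W) w‖ ^ 2 * w ^ (-(4 : ℝ)) * (Real.log w ^ 2 * w ^ (-(2 * δ))) := by
        simp only [hF]
        rw [neg_add, Real.rpow_add hw0]
        change ‖AA (an W) w‖ ^ 2 * Real.log w ^ 2 * (w ^ (-(4 : ℝ)) * w ^ (-(2 * δ))) = _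
        ring
      have h2 : Real.log z ^ 2 * Real.exp (-4) ≤ Real.log w ^ 2 * w ^ (-(2 * δ)) := by
        have h3 : Real.log z ^ 2 ≤ Real.log w ^ 2 := pow_le_pow_left₀ hlz0.le hlw 2
        exact mul_le_mul h3 e1 (Real.exp_pos _).le (by positivity)
      have h4 : 0 ≤ ‖AA (an W) w‖ ^ 2 * w ^ (-(4 : ℝ)) := by positivity
      have h5 := mul_le_mul_of_nonneg_left h2 h4
      rw [← h1] at h5
      have h6 : Real.exp 4 * Real.exp (-4) = 1 := by rw [← Real.exp_add]; norm_num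
      have h7 : ‖AA (an W) w‖ ^ 2 * w ^ (-(4 : ℝ)) = Real.exp 4 / Real.log z ^ 2 *
          (‖AA (an W) w‖ ^ 2 * w ^ (-(4 : ℝ)) * (Real.log z ^ 2 * Real.exp (-4))) := by
        have : Real.exp 4 / Real.log z ^ 2 *
          (‖AA (an W) w‖ ^ 2 * w ^ (-(4 : ℝ)) * (Real.log z ^ 2 * Real.exp (-4))) =
          (Real.exp 4 * Real.exp (-4)) * (Real.log z ^ 2 / Real.log z ^ 2) *
          (‖AA (an W) w‖ ^ 2 * w ^ (-(4 : ℝ))) := by ring
        rw [this, h6, div_self (by positivity)]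
        ring
      rw [h7]
      exact mul_le_mul_of_nonneg_left h5 (by positivity)
    -- the arithmetic geometric mean inequality
    set α : ℝ := ‖AA (an W) w‖ * w ^ (-(2 : ℝ)) with hα
    set β : ℝ := w ^ (-(1 / 2) : ℝ) with hβ
    have e3 : ‖AA (an W) w‖ * w ^ (-(5 / 2) : ℝ) = α * β := by
      rw [hα, hβ, mul_assoc, ← Real.rpow_add hw0]
      norm_num
    have e4 : α ^ 2 = ‖AA (an W) w‖ ^ 2 * w ^ (-(4 : ℝ)) := by
      rw [hα, mul_pow, ← Real.rpow_natCast (w ^ (-(2 : ℝ))), ← Real.rpow_mul hw0.le]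
      norm_num
    have e5 : β ^ 2 = w⁻¹ := by
      rw [hβ, ← Real.rpow_natCast, ← Real.rpow_mul hw0.le, ← Real.rpow_neg_one]
      norm_num
    have e6 : α * β ≤ Real.log z / (2 * G) * α ^ 2 + G / (2 * Real.log z) * β ^ 2 := by
      have h1 : 0 ≤ (Real.log z * α - G * β) ^ 2 / (2 * G * Real.log z) := by positivity
      have h2 : (Real.log z * α - G * β) ^ 2 / (2 * G * Real.log z) =
          Real.log z / (2 * G) * α ^ 2 + G / (2 * Real.log z) * β ^ 2 - α * β := by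
        field_simp
        ring
      linarith
    rw [e3]
    refine e6.trans ?_
    rw [e5]
    refine add_le_add ?_ le_rfl
    rw [e4]
    calc Real.log z / (2 * G) * (‖AA (an W) w‖ ^ 2 * w ^ (-(4 : ℝ))) ≤
          Real.log z / (2 * G) * (Real.exp 4 / Real.log z ^ 2 * F w) :=
          mul_le_mul_of_nonneg_left e2 (by positivity)
      _ = _ := by field_simp
  have hIF : IntegrableOn F (Ioc z (z ^ 2)) := hi.mono_set fun w hw => lt_of_le_of_lt hz1 hw.1
  have hIinv : IntervalIntegrable (fun w : ℝ => w⁻¹) volume z (z ^ 2) := by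
    rw [intervalIntegrable_iff_integrableOn_Icc_of_le hzz]
    exact ContinuousOn.integrableOn_Icc (continuousOn_inv₀.mono fun w hw => by
      have : 0 < w := lt_of_lt_of_le hz0 hw.1
      exact this.ne')
  have h1 : ∫ w in z..(z ^ 2), ‖AA (an W) w‖ * w ^ (-(5 / 2) : ℝ) ≤
      ∫ w in Ioc z (z ^ 2), (Real.exp 4 / (2 * G * Real.log z) * F w +
        G / (2 * Real.log z) * w⁻¹) := by
    rw [intervalIntegral.integral_of_le hzz]
    refine setIntegral_mono_on ?_ ?_ measurableSet_Ioc hpt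
    · exact (intervalIntegrable_J (an W) hz1 hzz).1
    · exact (hIF.const_mul _).add (hIinv.1.const_mul _)
  have hinv : ∫ w in Ioc z (z ^ 2), w⁻¹ = Real.log (z ^ 2 / z) := by
    rw [← intervalIntegral.integral_of_le hzz, integral_inv_of_pos hz0 (by positivity)]
  rw [integral_add (hIF.const_mul _) (hIinv.1.const_mul _), integral_const_mul,
    integral_const_mul, hinv] at h1
  have h2 : ∫ w in Ioc z (z ^ 2), F w ≤ ∫ w in Ioi (1 : ℝ), F w :=
    setIntegral_mono_set hi ((ae_restrict_iff' measurableSet_Ioi).mpr (Eventually.of_forall hF0))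
      (Eventually.of_forall fun w hw => lt_of_le_of_lt hz1 hw.1)
  have h3 : ∫ w in Ioi (1 : ℝ), F w ≤ C' * (2 * G ^ 2) * Real.log z := by
    refine hle.trans ?_
    have e1 : C * (G ^ 2 + 1) / δ = C * (G ^ 2 + 1) * Real.log z := by
      rw [hδ]; field_simp
    rw [e1]
    have h4 : C * (G ^ 2 + 1) ≤ C' * (2 * G ^ 2) := by
      have h5 : G ^ 2 + 1 ≤ 2 * G ^ 2 := by nlinarith
      calc C * (G ^ 2 + 1) ≤ C' * (G ^ 2 + 1) :=
            mul_le_mul_of_nonneg_right (le_max_left _ _) (by positivity)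
        _ ≤ _ := mul_le_mul_of_nonneg_left h5 hC'0
    exact mul_le_mul_of_nonneg_right h4 hlz0.le
  have h4 : Real.log (z ^ 2 / z) = Real.log z := by
    congr 1
    field_simp
  rw [h4] at h1
  have h5 : Real.exp 4 / (2 * G * Real.log z) * ∫ w in Ioc z (z ^ 2), F w ≤
      Real.exp 4 / (2 * G * Real.log z) * (C' * (2 * G ^ 2) * Real.log z) :=
    mul_le_mul_of_nonneg_left (h2.trans h3) (by positivity)
  have h6 : Real.exp 4 / (2 * G * Real.log z) * (C' * (2 * G ^ 2) * Real.log z) =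
      Real.exp 4 * C' * G := by field_simp
  have h7 : G / (2 * Real.log z) * Real.log z = G / 2 := by field_simp
  rw [h6] at h5
  rw [h7] at h1
  calc _ ≤ _ := h1
    _ ≤ Real.exp 4 * C' * G + G / 2 := add_le_add h5 le_rfl
    _ ≤ _ := by linarith

/-- The logarithmic integral. -/
lemma J_bound (hSQ : StSQ K) (hAB : StAB K) : ∃ C : ℝ, 0 ≤ C ∧ ∀ (W : WeierstrassCurve K)
    (x G : ℝ), 3 ≤ x → 1 ≤ G → Hyp W x G →
    J (an W) x ≤ C * G * (1 + Real.log (Real.log x)) := by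
  obtain ⟨C, hC0, hC⟩ := block hSQ
  obtain ⟨A, hA0, hA⟩ := sum_abs_le hAB
  set c₀ : ℝ := A * Real.log 3 ^ 2 * 2 with hc₀
  have hl3 : 0 ≤ Real.log 3 := Real.log_nonneg (by norm_num)
  have hc₀0 : 0 ≤ c₀ := by positivity
  refine ⟨c₀ + 2 * C, by positivity, fun W x G hx hG hH => ?_⟩
  have hx0 : 0 < x := by linarith
  have hlx : 1 < Real.log x := by
    rw [Real.lt_log_iff_exp_lt hx0]
    linarith [Real.exp_one_lt_d9]
  have hllx : 0 < Real.log (Real.log x) := Real.log_pos hlx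
  have he1 : (1 : ℝ) ≤ Real.exp 1 := by linarith [Real.add_one_le_exp (1 : ℝ)]
  -- the first block
  have h0 : ∫ w in (1 : ℝ)..(Real.exp 1), ‖AA (an W) w‖ * w ^ (-(5 / 2) : ℝ) ≤ c₀ := by
    have h1 : ∀ w ∈ Ioc (1 : ℝ) (Real.exp 1), ‖AA (an W) w‖ * w ^ (-(5 / 2) : ℝ) ≤
        A * Real.log 3 ^ 2 := by
      intro w hw
      have hw0 : 0 < w := lt_trans one_pos hw.1
      have h2 := norm_AA_le_rpow (a := an W) (s := 3 / 2) (by norm_num) (hA W 3 le_rfl) hw0.le
        (hw.2.trans (by linarith [Real.exp_one_lt_d9]))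
      calc _ ≤ A * Real.log 3 ^ 2 * w ^ (3 / 2 : ℝ) * w ^ (-(5 / 2) : ℝ) := by gcongr
        _ = A * Real.log 3 ^ 2 * w⁻¹ := by
          rw [mul_assoc, ← Real.rpow_add hw0, ← Real.rpow_neg_one]
          norm_num
        _ ≤ A * Real.log 3 ^ 2 * 1 := by
          refine mul_le_mul_of_nonneg_left ?_ (by positivity)
          exact inv_le_one_of_one_le₀ hw.1.le
        _ = _ := mul_one _
    have h2 : ∫ w in (1 : ℝ)..(Real.exp 1), ‖AA (an W) w‖ * w ^ (-(5 / 2) : ℝ) ≤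
        ∫ w in (1 : ℝ)..(Real.exp 1), A * Real.log 3 ^ 2 := by
      refine intervalIntegral.integral_mono_on_of_le_Ioo he1
        (intervalIntegrable_J (an W) le_rfl he1) (by simp) fun w hw => ?_
      exact h1 w (Ioo_subset_Ioc_self hw)
    refine h2.trans ?_
    rw [intervalIntegral.integral_const, smul_eq_mul, hc₀, mul_comm]
    refine mul_le_mul_of_nonneg_left ?_ (by positivity)
    linarith [Real.exp_one_lt_d9]
  have hind : ∀ I : ℕ, (∀ i < I, Real.exp (2 ^ i) ≤ x) →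
      J (an W) (Real.exp (2 ^ I)) ≤ c₀ + I * (C * G) := by
    intro I
    induction I with
    | zero =>
      intro _
      rw [pow_zero, Nat.cast_zero, zero_mul, add_zero]
      exact h0
    | succ I ih =>
      intro hI
      have h1 := ih fun i hi => hI i (by omega)
      have h2 := hC W x G (Real.exp (2 ^ I)) hx hG hH
        (Real.exp_le_exp.mpr (one_le_pow₀ (by norm_num))) (hI I (by omega))
      have e1 : Real.exp (2 ^ I) ^ 2 = Real.exp (2 ^ (I + 1)) := by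
        rw [← Real.exp_nat_mul]
        congr 1
        push_cast
        ring
      rw [e1] at h2
      have h3 : (1 : ℝ) ≤ Real.exp (2 ^ I) := Real.one_le_exp (by positivity)
      have h4 : Real.exp (2 ^ I) ≤ Real.exp (2 ^ (I + 1)) :=
        Real.exp_le_exp.mpr (pow_le_pow_right₀ (by norm_num) (by omega))
      have h5 : J (an W) (Real.exp (2 ^ (I + 1))) = J (an W) (Real.exp (2 ^ I)) +
          ∫ w in (Real.exp (2 ^ I))..(Real.exp (2 ^ (I + 1))),
            ‖AA (an W) w‖ * w ^ (-(5 / 2) : ℝ) := by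
        rw [J, J, intervalIntegral.integral_add_adjacent_intervals
          (intervalIntegrable_J (an W) le_rfl h3) (intervalIntegrable_J (an W) h3 h4)]
      rw [h5]
      push_cast
      linarith
  set I : ℕ := ⌈Real.log (Real.log x) / Real.log 2⌉₊ with hI
  have hl2 : 0 < Real.log 2 := Real.log_pos (by norm_num)
  have hpow : ∀ i : ℕ, (2 : ℝ) ^ i = Real.exp (i * Real.log 2) := by
    intro i
    rw [Real.exp_nat_mul, Real.exp_log (by norm_num)]
  have hI1 : ∀ i < I, Real.exp (2 ^ i) ≤ x := by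
    intro i hi
    have h1 : (i : ℝ) < Real.log (Real.log x) / Real.log 2 := Nat.lt_ceil.mp hi
    rw [lt_div_iff₀ hl2] at h1
    rw [hpow, ← Real.le_log_iff_exp_le hx0, ← Real.le_log_iff_exp_le (by linarith)]
    exact h1.le
  have hI2 : x ≤ Real.exp (2 ^ I) := by
    have h1 : Real.log (Real.log x) / Real.log 2 ≤ I := Nat.le_ceil _
    rw [div_le_iff₀ hl2] at h1
    rw [hpow, ← Real.log_le_iff_le_exp hx0, ← Real.log_le_iff_le_exp (by linarith)]
    exact h1
  have hI3 : (I : ℝ) ≤ 2 * (1 + Real.log (Real.log x)) := by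
    have h1 : (I : ℝ) < Real.log (Real.log x) / Real.log 2 + 1 :=
      Nat.ceil_lt_add_one (by positivity)
    have h2 : Real.log (Real.log x) / Real.log 2 ≤ 2 * Real.log (Real.log x) := by
      rw [div_le_iff₀ hl2]
      nlinarith [Real.log_two_gt_d9]
    linarith
  have h1 := hind I hI1
  have hx1 : (1 : ℝ) ≤ x := by linarith
  have h2 : J (an W) x ≤ J (an W) (Real.exp (2 ^ I)) := by
    have h5 : J (an W) (Real.exp (2 ^ I)) = J (an W) x +
        ∫ w in x..(Real.exp (2 ^ I)), ‖AA (an W) w‖ * w ^ (-(5 / 2) : ℝ) := by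
      rw [J, J, intervalIntegral.integral_add_adjacent_intervals
        (intervalIntegrable_J (an W) le_rfl hx1) (intervalIntegrable_J (an W) hx1 hI2)]
    rw [h5]
    have h6 : 0 ≤ ∫ w in x..(Real.exp (2 ^ I)), ‖AA (an W) w‖ * w ^ (-(5 / 2) : ℝ) := by
      refine intervalIntegral.integral_nonneg hI2 fun w hw => ?_
      have : 0 < w := by linarith [hw.1]
      positivity
    linarith
  have h3 : c₀ ≤ c₀ * G * (1 + Real.log (Real.log x)) := by
    have : 1 ≤ G * (1 + Real.log (Real.log x)) := by nlinarith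
    calc c₀ = c₀ * 1 := (mul_one _).symm
      _ ≤ c₀ * (G * (1 + Real.log (Real.log x))) := mul_le_mul_of_nonneg_left this hc₀0
      _ = _ := by ring
  have h4 : (I : ℝ) * (C * G) ≤ 2 * (1 + Real.log (Real.log x)) * (C * G) :=
    mul_le_mul_of_nonneg_right hI3 (by positivity)
  calc J (an W) x ≤ c₀ + I * (C * G) := h2.trans h1
    _ ≤ c₀ * G * (1 + Real.log (Real.log x)) + 2 * (1 + Real.log (Real.log x)) * (C * G) :=
        add_le_add h3 h4
    _ = _ := by ring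

/-- Some elementary asymptotics. -/
lemma exists_y0 (θ : ℝ) (hθ : 0 < θ) : ∃ y₀ : ℝ, 9 ≤ y₀ ∧ ∀ y : ℝ, y₀ ≤ y →
    2 * Real.log y ^ 6 ≤ Real.sqrt y ∧ Real.log y ^ 2 * y ^ (-(θ / 2)) ≤ 1 := by
  have h1 : Tendsto (fun y : ℝ => Real.log y ^ 6 / y ^ (1 / 2 : ℝ)) atTop (𝓝 0) := by
    have := (isLittleO_log_rpow_rpow_atTop (s := 1 / 2) 6 (by norm_num)).tendsto_div_nhds_zero
    refine this.congr fun y => ?_
    norm_cast
  have h2 : Tendsto (fun y : ℝ => Real.log y ^ 2 / y ^ (θ / 2)) atTop (𝓝 0) := by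
    have := (isLittleO_log_rpow_rpow_atTop (s := θ / 2) 2 (by positivity)).tendsto_div_nhds_zero
    refine this.congr fun y => ?_
    norm_cast
  have h3 := h1.eventually (gt_mem_nhds (show (0 : ℝ) < 1 / 2 by norm_num))
  have h4 := h2.eventually (gt_mem_nhds (show (0 : ℝ) < 1 by norm_num))
  obtain ⟨y₁, hy₁⟩ := (h3.and h4).exists_forall_of_atTop
  refine ⟨max 9 y₁, le_max_left _ _, fun y hy => ?_⟩
  have hy9 : 9 ≤ y := (le_max_left _ _).trans hy
  have hy0 : 0 < y := by linarith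
  obtain ⟨h5, h6⟩ := hy₁ y ((le_max_right _ _).trans hy)
  constructor
  · rw [div_lt_iff₀ (Real.rpow_pos_of_pos hy0 _)] at h5
    rw [Real.sqrt_eq_rpow]
    linarith
  · rw [div_lt_iff₀ (Real.rpow_pos_of_pos hy0 _)] at h6
    rw [Real.rpow_neg hy0.le, ← div_eq_mul_inv, div_le_iff₀ (Real.rpow_pos_of_pos hy0 _)]
    linarith

lemma Hyp.mono {W : WeierstrassCurve K} {x y G : ℝ} (h : Hyp W x G) (hy : 3 ≤ y) (hyx : y ≤ x) :
    Hyp W y G := by
  intro δ hδ hδ1 t ht
  refine h δ (le_trans ?_ hδ) hδ1 t ht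
  have hly : 0 < Real.log y := Real.log_pos (by linarith)
  exact one_div_le_one_div_of_le hly (Real.log_le_log (by linarith) hyx)

/-- The inequality for the curve. -/
lemma curve_ineq (hSQ : StSQ K) (hBT : StBT) (hAB : StAB K) (hCV : StCV K) :
    ∃ (C y₀ : ℝ), 0 ≤ C ∧ 9 ≤ y₀ ∧ ∀ (W : WeierstrassCurve K) (y G σ : ℝ), y₀ ≤ y → 1 ≤ G →
      Hyp W y G → 0 ≤ σ →
      (∀ w : ℝ, Real.sqrt y ≤ w → w ≤ y → ‖AA (an W) w‖ ≤ σ * w ^ (3 / 2 : ℝ)) →
      ‖AA (an W) y‖ * Real.log y ≤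
        y ^ (3 / 2 : ℝ) * (C * (1 + Real.log (Real.log y)) * (G + σ)) := by
  obtain ⟨C₁, hC₁, hJ⟩ := J_bound hSQ hAB
  obtain ⟨A, hA0, hA⟩ := sum_abs_le hAB
  obtain ⟨C₃, hC₃, hM⟩ := main_ineq hBT
  obtain ⟨θ, C₂, hθ, -, hcv⟩ := hCV
  obtain ⟨y₀, hy₀, hasym⟩ := exists_y0 θ hθ
  set C₂' : ℝ := max C₂ 0 with hC₂'
  have hC₂'0 : 0 ≤ C₂' := le_max_right _ _
  set c₁ : ℝ := 2 * Module.finrank ℚ K with hc₁
  have hc₁0 : 0 ≤ c₁ := by positivity
  refine ⟨C₁ + C₂' * (1 + A) + c₁ * 9 + c₁ * C₃ * (C₁ + A), y₀, by positivity, hy₀, ?_⟩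
  intro W y G σ hy hG hH hσ hσ'
  have hy3 : 3 ≤ y := by linarith
  have hy1 : 1 ≤ y := by linarith
  have hy0 : 0 < y := by linarith
  have hly : 1 < Real.log y := by
    rw [Real.lt_log_iff_exp_lt hy0]
    linarith [Real.exp_one_lt_d9]
  have hly0 : 0 < Real.log y := by linarith
  have hlly : 0 < Real.log (Real.log y) := Real.log_pos hly
  obtain ⟨as1, as2⟩ := hasym y hy
  obtain ⟨Λ, hΛ0, hΛs, hΛ, hconv⟩ := hcv W
  set δ : ℝ := (Real.log y ^ 2)⁻¹ / 2 with hδ
  have hl2 : 1 ≤ Real.log y ^ 2 := one_le_pow₀ hly.le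
  have hδ0 : 0 < δ := by positivity
  have hδ2 : δ ≤ 1 / 2 := by
    rw [hδ]
    have := inv_le_one_of_one_le₀ hl2
    linarith
  set T : ℝ := 2 * Real.log y ^ 6 with hT
  have hT' : 2 * (2 * δ) ^ (-3 : ℝ) ≤ T := by
    have e1 : 2 * δ = (Real.log y ^ 2)⁻¹ := by rw [hδ]; ring
    have e2 : ((Real.log y ^ 2)⁻¹) ^ (-3 : ℝ) = Real.log y ^ 6 := by
      rw [← Real.rpow_natCast, ← Real.rpow_neg hly0.le, ← Real.rpow_mul hly0.le,
        ← Real.rpow_natCast]
      norm_num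
    rw [e1, e2]
  have hm := hM (an W) (cp W) Λ y θ c₁ C₂' σ (A * Real.log y ^ 2) δ T hy1
    (by simp [an]) hΛ0 hθ hδ0 hδ2 hc₁0 hσ hT' as1
    (fun k => by
      by_cases hk : k.Prime
      · refine (abs_cp_le W k).trans ?_
        rw [hc₁]
        exact mul_le_mul_of_nonneg_left (by exact_mod_cast rr_le (K := K) hk) (by norm_num)
      · rw [cp_eq_zero W (fun h => hk h.1), abs_zero]
        exact hc₁0)
    (fun k hk => cp_eq_zero W (fun h => hk h.1))
    ((hΛs.sum_le_tsum _ fun k _ => by positivity).trans (hΛ.trans (le_max_left _ _)))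
    (fun n hn => by
      have h1 := hconv n hn
      have h2 : (((W.LFunction n : ℝ) * Real.log n : ℝ) : ℂ) = ((∑ p ∈ n.divisorsAntidiagonal,
        (W.LFunction p.1 : ℝ) * (cp W p.2 * Real.sqrt p.2 * Real.log p.2 + Λ p.2) : ℝ) : ℂ) := by
        rw [h1]
      have h3 : an W n * (Real.log n : ℂ) = (((W.LFunction n : ℝ) * Real.log n : ℝ) : ℂ) := by
        rw [an, Complex.ofReal_mul, Complex.ofReal_intCast]
      rw [h3, h2, Complex.ofReal_sum]
      refine Finset.sum_congr rfl fun p _ => ?_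
      rw [an, Complex.ofReal_mul, Complex.ofReal_intCast])
    hσ' (hA W y hy3)
  refine hm.trans ?_
  have hY : 0 ≤ y ^ (3 / 2 : ℝ) := by positivity
  refine mul_le_mul_of_nonneg_left ?_ hY
  set ℓ : ℝ := 1 + Real.log (Real.log y) with hℓ
  have hℓ1 : 1 ≤ ℓ := by rw [hℓ]; linarith
  have hJ' : J (an W) y ≤ C₁ * G * ℓ := hJ W y G hy3 hG hH
  have hGσ : 1 ≤ G + σ := by linarith
  have t1 : J (an W) y ≤ C₁ * ℓ * (G + σ) := by
    refine hJ'.trans ?_
    have : 0 ≤ C₁ * ℓ * σ := by positivity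
    nlinarith
  have t2 : σ + A * Real.log y ^ 2 * y ^ (-(θ / 2)) ≤ (1 + A) * ℓ * (G + σ) := by
    have e1 : A * Real.log y ^ 2 * y ^ (-(θ / 2)) ≤ A * 1 := by
      rw [mul_assoc]
      exact mul_le_mul_of_nonneg_left as2 hA0
    have e2 : σ + A ≤ (1 + A) * (G + σ) := by nlinarith
    have e3 : (1 + A) * (G + σ) ≤ (1 + A) * ℓ * (G + σ) := by
      have : 0 ≤ (1 + A) * (G + σ) := by positivity
      nlinarith
    linarith
  have t3 : σ * (Real.log T + Real.log 4) ≤ 9 * ℓ * (G + σ) := by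
    have e1 : Real.log T = Real.log 2 + 6 * Real.log (Real.log y) := by
      rw [hT, Real.log_mul (by norm_num) (by positivity), Real.log_pow]
      push_cast
      ring
    have e2 : Real.log 4 = 2 * Real.log 2 := by
      rw [show (4 : ℝ) = 2 ^ 2 by norm_num, Real.log_pow]
      push_cast
      ring
    have e3 : Real.log T + Real.log 4 ≤ 9 * ℓ := by
      rw [e1, e2, hℓ]
      linarith [Real.log_two_lt_d9]
    calc σ * (Real.log T + Real.log 4) ≤ σ * (9 * ℓ) := mul_le_mul_of_nonneg_left e3 hσ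
      _ ≤ 9 * ℓ * (G + σ) := by nlinarith
  have t4 : J (an W) y + δ * (A * Real.log y ^ 2) ≤ (C₁ + A) * ℓ * (G + σ) := by
    have e1 : δ * (A * Real.log y ^ 2) = A / 2 := by
      rw [hδ]; field_simp
    have e2 : A / 2 ≤ A * ℓ * (G + σ) := by
      have : 1 ≤ ℓ * (G + σ) := by nlinarith
      nlinarith
    rw [e1]
    linarith
  have t2' := mul_le_mul_of_nonneg_left t2 hC₂'0
  have t3' := mul_le_mul_of_nonneg_left t3 hc₁0
  have t4' := mul_le_mul_of_nonneg_left t4 (mul_nonneg hc₁0 hC₃)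
  calc _ ≤ C₁ * ℓ * (G + σ) + C₂' * ((1 + A) * ℓ * (G + σ)) + c₁ * (9 * ℓ * (G + σ)) +
        c₁ * C₃ * ((C₁ + A) * ℓ * (G + σ)) := by
        have e : c₁ * σ * (Real.log T + Real.log 4) = c₁ * (σ * (Real.log T + Real.log 4)) := by
          ring
        rw [e]
        exact add_le_add (add_le_add (add_le_add t1 t2') t3') t4'
    _ = _ := by ring

/-- Boundedness of powers of the iterated logarithm. -/
lemma exists_bound_loglog (k : ℕ) : ∃ B : ℝ, 0 ≤ B ∧ ∀ x : ℝ, 3 ≤ x →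
    (1 + Real.log (Real.log x)) ^ k / Real.log x ≤ B := by
  have h1 : ∀ u : ℝ, 1 ≤ u → 1 + Real.log u ≤ ((k : ℝ) + 1) * u ^ (1 / ((k : ℝ) + 1)) := by
    intro u hu
    have hk : (0 : ℝ) < (k : ℝ) + 1 := by positivity
    have hu0 : 0 < u := by linarith
    have h2 := Real.add_one_le_exp (1 / ((k : ℝ) + 1) * Real.log u)
    have h3 : Real.exp (1 / ((k : ℝ) + 1) * Real.log u) = u ^ (1 / ((k : ℝ) + 1)) := by
      rw [Real.rpow_def_of_pos hu0, mul_comm]
    rw [h3] at h2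
    have h4 := mul_le_mul_of_nonneg_left h2 hk.le
    have h5 : ((k : ℝ) + 1) * (1 / ((k : ℝ) + 1) * Real.log u + 1) = Real.log u + (k + 1) := by
      field_simp
    rw [h5] at h4
    have : (0 : ℝ) ≤ k := Nat.cast_nonneg k
    linarith
  refine ⟨((k : ℝ) + 1) ^ k, by positivity, fun x hx => ?_⟩
  have hx0 : 0 < x := by linarith
  have hlx : 1 < Real.log x := by
    rw [Real.lt_log_iff_exp_lt hx0]
    linarith [Real.exp_one_lt_d9]
  have hlx0 : 0 < Real.log x := by linarith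
  have hllx : 0 < Real.log (Real.log x) := Real.log_pos hlx
  rw [div_le_iff₀ hlx0]
  have h2 := pow_le_pow_left₀ (by linarith) (h1 _ hlx.le) k
  refine h2.trans ?_
  rw [mul_pow]
  refine mul_le_mul_of_nonneg_left ?_ (by positivity)
  rw [← Real.rpow_natCast, ← Real.rpow_mul hlx0.le]
  have h3 : 1 / ((k : ℝ) + 1) * k ≤ 1 := by
    rw [one_div_mul_eq_div, div_le_one (by positivity)]
    linarith
  calc Real.log x ^ (1 / ((k : ℝ) + 1) * k) ≤ Real.log x ^ (1 : ℝ) :=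
        Real.rpow_le_rpow_of_exponent_le hlx.le h3
    _ = Real.log x := Real.rpow_one _

end PW69

open PW69 in
/-- **The pointwise bound.** -/
theorem stPW (K : Type*) [Field K] [NumberField K] (hSQ : StSQ K) (hPH : StPH K) (hBT : StBT)
    (hAB : StAB K) (hCV : StCV K) : StPW K := by
  obtain ⟨C, y₀, hC0, hy₀, hci⟩ := curve_ineq hSQ hBT hAB hCV
  obtain ⟨A, hA0, hA⟩ := sum_abs_le hAB
  obtain ⟨P, hP⟩ := hPH
  obtain ⟨B, hB0, hB⟩ := exists_bound_loglog 3
  set P' : ℝ := max P 1 with hP'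
  have hP'1 : 1 ≤ P' := le_max_right _ _
  -- constants
  set D : ℝ := 2 * C * P' + 2 * (A * (4 * C) ^ 3 + A * Real.log y₀ ^ 3) with hD
  have hly₀ : 0 ≤ Real.log y₀ := Real.log_nonneg (by linarith)
  have hD0 : 0 ≤ D := by positivity
  refine ⟨C * (P' + 2 * D * B) + A * Real.log y₀ ^ 3, fun W x hx G hG hyp => ?_⟩
  have hx0 : 0 < x := by linarith
  have hlx : 1 < Real.log x := by
    rw [Real.lt_log_iff_exp_lt hx0]
    linarith [Real.exp_one_lt_d9]
  have hlx0 : 0 < Real.log x := by linarith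
  have hllx : 0 < Real.log (Real.log x) := Real.log_pos hlx
  set ℓ : ℝ := 1 + Real.log (Real.log x) with hℓ
  have hℓ1 : 1 ≤ ℓ := by rw [hℓ]; linarith
  have hδ₀ : 0 < 1 / Real.log x := by positivity
  have hδ₁ : 1 / Real.log x ≤ 1 := by rw [div_le_one hlx0]; exact hlx.le
  have hpow : (1 / Real.log x) ^ (-(5 : ℝ)) = Real.log x ^ (5 : ℝ) := by
    rw [one_div, Real.inv_rpow hlx0.le, Real.rpow_neg hlx0.le, inv_inv]
  have hH : Hyp W x (P' * G) := by
    intro δ hδ hδ1 t ht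
    refine (hP W (1 / Real.log x) hδ₀ hδ₁ G hG (fun t ht => hyp t (by rwa [hpow] at ht)) δ t hδ hδ1
      (ht.trans ?_)).trans (mul_le_mul_of_nonneg_right (le_max_left _ _) (by linarith))
    exact Real.rpow_le_rpow_of_nonpos hδ₀ hδ (by norm_num)
  have hG' : 1 ≤ P' * G := by nlinarith
  have hfun : (fun n => (W.LFunction n : ℂ)) = an W := rfl
  rw [hfun]
  -- the normalised function
  set S : ℝ → ℝ := fun y => ‖AA (an W) y‖ * y ^ (-(3 / 2) : ℝ) with hS
  have hS0 : ∀ y, 0 < y → 0 ≤ S y := fun y hy => by simp only [hS]; positivity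
  have hSA : ∀ y, 0 < y → ‖AA (an W) y‖ = S y * y ^ (3 / 2 : ℝ) := by
    intro y hy
    simp only [hS]
    rw [mul_assoc, ← Real.rpow_add hy]
    norm_num
  have htriv : ∀ y, 3 ≤ y → S y * Real.log y ≤ A * Real.log y ^ 3 := by
    intro y hy
    have hy0 : 0 < y := by linarith
    have h1 := norm_AA_le_rpow (a := an W) (s := 3 / 2) (by norm_num) (hA W y hy) hy0.le le_rfl
    rw [hSA y hy0] at h1
    have h2 : S y ≤ A * Real.log y ^ 2 := le_of_mul_le_mul_right h1 (Real.rpow_pos_of_pos hy0 _)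
    have h3 : 0 ≤ Real.log y := Real.log_nonneg (by linarith)
    calc S y * Real.log y ≤ A * Real.log y ^ 2 * Real.log y := mul_le_mul_of_nonneg_right h2 h3
      _ = _ := by ring
  -- the inequality for `S`
  have hineq : ∀ y, y₀ ≤ y → y ≤ x → ∀ Q : ℝ, 0 ≤ Q →
      (∀ w, 3 ≤ w → w ≤ x → S w * Real.log w ≤ Q) →
      S y * Real.log y ≤ C * ℓ * (P' * G + 2 * Q / Real.log y) := by
    intro y hy hyx Q hQ hQw
    have hy9 : 9 ≤ y := hy₀.trans hy
    have hy0 : 0 < y := by linarith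
    have hly : 0 < Real.log y := Real.log_pos (by linarith)
    have hly1 : 1 < Real.log y := by
      rw [Real.lt_log_iff_exp_lt hy0]
      linarith [Real.exp_one_lt_d9]
    have hsq : 3 ≤ Real.sqrt y := by
      rw [Real.le_sqrt (by norm_num) hy0.le]
      linarith
    have h1 := hci W y (P' * G) (2 * Q / Real.log y) hy hG' (hH.mono (by linarith) hyx)
      (by positivity) (fun w hw1 hw2 => by
        have hw3 : 3 ≤ w := hsq.trans hw1
        have hw0 : 0 < w := by linarith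
        rw [hSA w hw0]
        refine mul_le_mul_of_nonneg_right ?_ (Real.rpow_nonneg hw0.le _)
        have h2 := hQw w hw3 (hw2.trans hyx)
        have h3 : Real.log y / 2 ≤ Real.log w := by
          rw [← Real.log_sqrt hy0.le]
          exact Real.log_le_log (by linarith) hw1
        have h4 : S w * (Real.log y / 2) ≤ Q :=
          (mul_le_mul_of_nonneg_left h3 (hS0 w hw0)).trans h2
        rw [le_div_iff₀ hly]
        linarith)
    rw [hSA y hy0] at h1
    have hyp0 : 0 < y ^ (3 / 2 : ℝ) := Real.rpow_pos_of_pos hy0 _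
    have h2 : y ^ (3 / 2 : ℝ) * (S y * Real.log y) ≤ y ^ (3 / 2 : ℝ) *
        (C * (1 + Real.log (Real.log y)) * (P' * G + 2 * Q / Real.log y)) := by
      calc _ = S y * y ^ (3 / 2 : ℝ) * Real.log y := by ring
        _ ≤ _ := h1
    have h3 := le_of_mul_le_mul_left h2 hyp0
    refine h3.trans ?_
    have h4 : Real.log (Real.log y) ≤ Real.log (Real.log x) :=
      Real.log_le_log hly (Real.log_le_log hy0 hyx)
    have h5 : 0 ≤ P' * G + 2 * Q / Real.log y := by positivity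
    refine mul_le_mul_of_nonneg_right ?_ h5
    refine mul_le_mul_of_nonneg_left ?_ hC0
    rw [hℓ]
    linarith
  -- the rest term
  set R : ℝ := C * ℓ * (P' * G) + (A * (4 * C * ℓ) ^ 3 + A * Real.log y₀ ^ 3) with hR
  have hR0 : 0 ≤ R := by positivity
  have hstep : ∀ Q : ℝ, 0 ≤ Q → (∀ w, 3 ≤ w → w ≤ x → S w * Real.log w ≤ Q) →
      ∀ w, 3 ≤ w → w ≤ x → S w * Real.log w ≤ Q / 2 + R := by
    intro Q hQ hQw y hy hyx
    have hy0 : 0 < y := by linarith
    have hly : 0 < Real.log y := Real.log_pos (by linarith)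
    have r1 : 0 ≤ C * ℓ * (P' * G) := by positivity
    have r2 : 0 ≤ A * (4 * C * ℓ) ^ 3 := by positivity
    have r3 : 0 ≤ A * Real.log y₀ ^ 3 := by positivity
    rcases lt_or_ge y y₀ with h | h
    · have h1 := htriv y hy
      have h2 : Real.log y ^ 3 ≤ Real.log y₀ ^ 3 :=
        pow_le_pow_left₀ hly.le (Real.log_le_log hy0 h.le) 3
      have h3 := mul_le_mul_of_nonneg_left h2 hA0
      linarith
    · rcases lt_or_ge (Real.log y) (4 * C * ℓ) with h' | h'
      · have h1 := htriv y hy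
        have h2 : Real.log y ^ 3 ≤ (4 * C * ℓ) ^ 3 := pow_le_pow_left₀ hly.le h'.le 3
        have h3 := mul_le_mul_of_nonneg_left h2 hA0
        linarith
      · have h1 := hineq y h hyx Q hQ hQw
        have h2 : C * ℓ * (2 * Q / Real.log y) ≤ Q / 2 := by
          rw [← mul_div_assoc, div_le_iff₀ hly]
          nlinarith
        calc _ ≤ _ := h1
          _ = C * ℓ * (P' * G) + C * ℓ * (2 * Q / Real.log y) := by ring
          _ ≤ _ := by linarith
  have hiter : ∀ k : ℕ, ∀ w, 3 ≤ w → w ≤ x →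
      S w * Real.log w ≤ A * Real.log x ^ 3 * (1 / 2) ^ k + 2 * R := by
    intro k
    induction k with
    | zero =>
      intro w hw hwx
      have h1 := htriv w hw
      have hlw : 0 ≤ Real.log w := Real.log_nonneg (by linarith)
      have h2 : Real.log w ^ 3 ≤ Real.log x ^ 3 :=
        pow_le_pow_left₀ hlw (Real.log_le_log (by linarith) hwx) 3
      have h3 := mul_le_mul_of_nonneg_left h2 hA0
      rw [pow_zero, mul_one]
      linarith
    | succ k ih =>
      intro w hw hwx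
      have h1 := hstep _ (by positivity) ih w hw hwx
      refine h1.trans (le_of_eq ?_)
      rw [pow_succ]
      ring
  have hlim : ∀ w, 3 ≤ w → w ≤ x → S w * Real.log w ≤ 2 * R := by
    intro w hw hwx
    have h1 : Tendsto (fun k : ℕ => A * Real.log x ^ 3 * (1 / 2 : ℝ) ^ k + 2 * R) atTop
        (𝓝 (A * Real.log x ^ 3 * 0 + 2 * R)) :=
      ((tendsto_pow_atTop_nhds_zero_of_lt_one (by norm_num) (by norm_num)).const_mul _).add_const _
    rw [mul_zero, zero_add] at h1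
    exact ge_of_tendsto' h1 fun k => hiter k w hw hwx
  have hRD : 2 * R ≤ D * ℓ ^ 3 * G := by
    have e1 : ℓ ≤ ℓ ^ 3 := by
      calc ℓ = ℓ ^ 1 := (pow_one ℓ).symm
        _ ≤ ℓ ^ 3 := pow_le_pow_right₀ hℓ1 (by norm_num)
    have e2 : 1 ≤ ℓ ^ 3 := one_le_pow₀ hℓ1
    have e3 : 0 ≤ C * P' * G := by positivity
    have e4 : C * ℓ * (P' * G) ≤ C * P' * ℓ ^ 3 * G := by
      calc C * ℓ * (P' * G) = C * P' * G * ℓ := by ring
        _ ≤ C * P' * G * ℓ ^ 3 := mul_le_mul_of_nonneg_left e1 e3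
        _ = _ := by ring
    have e5 : A * (4 * C * ℓ) ^ 3 ≤ A * (4 * C) ^ 3 * ℓ ^ 3 * G := by
      have : 0 ≤ A * (4 * C) ^ 3 * ℓ ^ 3 := by positivity
      calc A * (4 * C * ℓ) ^ 3 = A * (4 * C) ^ 3 * ℓ ^ 3 * 1 := by ring
        _ ≤ _ := mul_le_mul_of_nonneg_left hG this
    have e6 : A * Real.log y₀ ^ 3 ≤ A * Real.log y₀ ^ 3 * ℓ ^ 3 * G := by
      have h1 : 1 ≤ ℓ ^ 3 * G := by nlinarith
      have : 0 ≤ A * Real.log y₀ ^ 3 := by positivity
      calc A * Real.log y₀ ^ 3 = A * Real.log y₀ ^ 3 * 1 := (mul_one _).symm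
        _ ≤ A * Real.log y₀ ^ 3 * (ℓ ^ 3 * G) := mul_le_mul_of_nonneg_left h1 this
        _ = _ := by ring
    rw [hR, hD]
    linarith
  have hxp : 0 < x ^ (3 / 2 : ℝ) := Real.rpow_pos_of_pos hx0 _
  have hfin : S x * Real.log x ≤ (C * (P' + 2 * D * B) + A * Real.log y₀ ^ 3) * G * ℓ := by
    have r3 : 0 ≤ A * Real.log y₀ ^ 3 := by positivity
    have hGℓ : 1 ≤ G * ℓ := by nlinarith
    rcases lt_or_ge x y₀ with h | h
    · have h1 := htriv x hx
      have h2 : Real.log x ^ 3 ≤ Real.log y₀ ^ 3 :=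
        pow_le_pow_left₀ hlx0.le (Real.log_le_log hx0 h.le) 3
      have h3 := mul_le_mul_of_nonneg_left h2 hA0
      have h4 : 0 ≤ C * (P' + 2 * D * B) * (G * ℓ) := by positivity
      have h5 : A * Real.log y₀ ^ 3 * 1 ≤ A * Real.log y₀ ^ 3 * (G * ℓ) :=
        mul_le_mul_of_nonneg_left hGℓ r3
      linarith
    · have h1 := hineq x h le_rfl (D * ℓ ^ 3 * G) (by positivity)
        (fun w hw hwx => (hlim w hw hwx).trans hRD)
      have h2 : 2 * (D * ℓ ^ 3 * G) / Real.log x ≤ 2 * D * B * G := by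
        have h3 := hB x hx
        rw [← hℓ] at h3
        calc 2 * (D * ℓ ^ 3 * G) / Real.log x = 2 * D * G * (ℓ ^ 3 / Real.log x) := by ring
          _ ≤ 2 * D * G * B := mul_le_mul_of_nonneg_left h3 (by positivity)
          _ = _ := by ring
      have h4 : C * ℓ * (P' * G + 2 * (D * ℓ ^ 3 * G) / Real.log x) ≤
          C * ℓ * (P' * G + 2 * D * B * G) :=
        mul_le_mul_of_nonneg_left (add_le_add le_rfl h2) (by positivity)
      have h5 : 0 ≤ A * Real.log y₀ ^ 3 * (G * ℓ) := by positivity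
      calc _ ≤ _ := h1
        _ ≤ _ := h4
        _ ≤ _ := by linarith
  rw [hSA x hx0, le_div_iff₀ hlx0]
  calc S x * x ^ (3 / 2 : ℝ) * Real.log x = x ^ (3 / 2 : ℝ) * (S x * Real.log x) := by ring
    _ ≤ x ^ (3 / 2 : ℝ) * ((C * (P' + 2 * D * B) + A * Real.log y₀ ^ 3) * G * ℓ) :=
        mul_le_mul_of_nonneg_left hfin hxp.le
    _ = _ := by rw [hℓ]; ring

end Pool.Agent.Lib.MP_bf61d2_nt.MV59
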