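import Pool.Agent.Lib.MP_bf61d2_nt.MV59.PWiv7
import Pool.Agent.Lib.MP_bdd9a3_nt.Mertens

set_option autoImplicit false

/-!
MEAN VALUES, module PW, first part: the inequality for the summatory function which follows from
the convolution identity.
-/

namespace Pool.Agent.Lib.MP_bf61d2_nt.MV59

open MeasureTheory Set Filter Topology

namespace PW69

/-- The logarithmic integral of the summatory function. -/
noncomputable def J (a : ℕ → ℂ) (x : ℝ) : ℝ := ∫ w in (1 : ℝ)..x, ‖AA a w‖ * w ^ (-(5 / 2) : ℝ)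

lemma norm_AA_le_sum (a : ℕ → ℂ) (w : ℝ) : ‖AA a w‖ ≤ ∑ n ∈ Finset.Icc 1 ⌊w⌋₊, ‖a n‖ :=
  norm_sum_le _ _

/-- The trivial bound. -/
lemma norm_AA_le_rpow {a : ℕ → ℂ} {x τ s : ℝ} (hs : 0 ≤ s)
    (hτ : ∑ n ∈ Finset.Icc 1 ⌊x⌋₊, ‖a n‖ * (n : ℝ) ^ (-s) ≤ τ) {w : ℝ} (hw : 0 ≤ w)
    (hwx : w ≤ x) : ‖AA a w‖ ≤ τ * w ^ s := by
  have h1 : ∀ n ∈ Finset.Icc 1 ⌊w⌋₊, ‖a n‖ ≤ ‖a n‖ * (n : ℝ) ^ (-s) * w ^ s := by
    intro n hn
    rw [Finset.mem_Icc] at hn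
    have hn0 : (0 : ℝ) < n := by exact_mod_cast (show 0 < n by omega)
    have hnw : (n : ℝ) ≤ w := (Nat.le_floor_iff hw).mp hn.2
    have h2 : (n : ℝ) ^ s ≤ w ^ s := Real.rpow_le_rpow hn0.le hnw hs
    have h3 : 1 ≤ (n : ℝ) ^ (-s) * w ^ s := by
      rw [Real.rpow_neg hn0.le]
      have h4 : 0 < (n : ℝ) ^ s := Real.rpow_pos_of_pos hn0 _
      rw [inv_mul_eq_div, le_div_iff₀ h4, one_mul]
      exact h2
    calc ‖a n‖ = ‖a n‖ * 1 := (mul_one _).symm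
      _ ≤ ‖a n‖ * ((n : ℝ) ^ (-s) * w ^ s) := mul_le_mul_of_nonneg_left h3 (norm_nonneg _)
      _ = _ := by ring
  have h2 : ∑ n ∈ Finset.Icc 1 ⌊w⌋₊, ‖a n‖ * (n : ℝ) ^ (-s) ≤
      ∑ n ∈ Finset.Icc 1 ⌊x⌋₊, ‖a n‖ * (n : ℝ) ^ (-s) :=
    Finset.sum_le_sum_of_subset_of_nonneg (Finset.Icc_subset_Icc_right (Nat.floor_le_floor hwx))
      fun n _ _ => by positivity
  calc ‖AA a w‖ ≤ ∑ n ∈ Finset.Icc 1 ⌊w⌋₊, ‖a n‖ := norm_AA_le_sum a w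
    _ ≤ ∑ n ∈ Finset.Icc 1 ⌊w⌋₊, ‖a n‖ * (n : ℝ) ^ (-s) * w ^ s := Finset.sum_le_sum h1
    _ = (∑ n ∈ Finset.Icc 1 ⌊w⌋₊, ‖a n‖ * (n : ℝ) ^ (-s)) * w ^ s := by rw [Finset.sum_mul]
    _ ≤ _ := mul_le_mul_of_nonneg_right (h2.trans hτ) (Real.rpow_nonneg hw _)

lemma norm_AA_mono_bound (a : ℕ → ℂ) {w x : ℝ} (hwx : w ≤ x) :
    ‖AA a w‖ ≤ ∑ n ∈ Finset.Icc 1 ⌊x⌋₊, ‖a n‖ :=
  (norm_AA_le_sum a w).trans (Finset.sum_le_sum_of_subset_of_nonneg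
    (Finset.Icc_subset_Icc_right (Nat.floor_le_floor hwx)) fun _ _ _ => norm_nonneg _)

/-- Integrability on bounded sets. -/
lemma integrableOn_mul (a : ℕ → ℂ) {g : ℝ → ℝ} (hg : Measurable g) {x B : ℝ}
    (hB : ∀ w ∈ Icc (1 : ℝ) x, |g w| ≤ B) :
    IntegrableOn (fun w : ℝ => ‖AA a w‖ * g w) (Icc 1 x) := by
  refine Measure.integrableOn_of_bounded (M := (∑ n ∈ Finset.Icc 1 ⌊x⌋₊, ‖a n‖) * B)
    (by simp) (((measurable_AA a).norm.mul hg).aestronglyMeasurable) ?_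
  rw [ae_restrict_iff' measurableSet_Icc]
  refine Eventually.of_forall fun w hw => ?_
  rw [norm_mul, norm_norm]
  exact mul_le_mul (norm_AA_mono_bound a hw.2) (hB w hw) (norm_nonneg _)
    (Finset.sum_nonneg fun _ _ => norm_nonneg _)

lemma integrableOn_J (a : ℕ → ℂ) (x : ℝ) :
    IntegrableOn (fun w : ℝ => ‖AA a w‖ * w ^ (-(5 / 2) : ℝ)) (Icc 1 x) := by
  refine integrableOn_mul a (by fun_prop) (B := 1) fun w hw => ?_
  have hw0 : (0 : ℝ) < w := by linarith [hw.1]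
  rw [abs_of_pos (Real.rpow_pos_of_pos hw0 _)]
  exact Real.rpow_le_one_of_one_le_of_nonpos hw.1 (by norm_num)

lemma J_eq (a : ℕ → ℂ) {x : ℝ} (hx : 1 ≤ x) :
    J a x = ∫ w in Icc 1 x, ‖AA a w‖ * w ^ (-(5 / 2) : ℝ) := by
  rw [J, intervalIntegral.integral_of_le hx, integral_Icc_eq_integral_Ioc]

lemma J_nonneg (a : ℕ → ℂ) {x : ℝ} (hx : 1 ≤ x) : 0 ≤ J a x := by
  rw [J_eq a hx]
  refine setIntegral_nonneg measurableSet_Icc fun w hw => ?_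
  have hw0 : (0 : ℝ) < w := by linarith [hw.1]
  positivity

/-- Change of variables. -/
lemma subst (a : ℕ → ℂ) {x : ℝ} (hx : 1 ≤ x) :
    ∫ t in (1 : ℝ)..x, t ^ (1 / 2 : ℝ) * ‖AA a (x / t)‖ = x ^ (3 / 2 : ℝ) * J a x := by
  have hx0 : 0 < x := by linarith
  rw [intervalIntegral.integral_of_le hx, ← integral_Icc_eq_integral_Ioc, J_eq a hx]
  have himg : (fun t : ℝ => x / t) '' Icc 1 x = Icc 1 x := by
    ext w
    constructor
    · rintro ⟨t, ht, rfl⟩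
      have ht0 : 0 < t := by linarith [ht.1]
      exact ⟨(one_le_div ht0).mpr ht.2, div_le_self hx0.le ht.1⟩
    · intro hw
      have hw0 : 0 < w := by linarith [hw.1]
      exact ⟨x / w, ⟨(one_le_div hw0).mpr hw.2, div_le_self hx0.le hw.1⟩, by
        simp only
        field_simp⟩
  have hder : ∀ t ∈ Icc 1 x, HasDerivWithinAt (fun t : ℝ => x / t) (-(x / t ^ 2)) (Icc 1 x) t := by
    intro t ht
    have ht0 : t ≠ 0 := by linarith [ht.1]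
    have h := (hasDerivAt_inv ht0).const_mul x
    have e : x * -(t ^ 2)⁻¹ = -(x / t ^ 2) := by field_simp
    rw [e] at h
    exact h.hasDerivWithinAt
  have hinj : InjOn (fun t : ℝ => x / t) (Icc 1 x) := by
    intro t ht t' ht' h
    have ht0 : 0 < t := by linarith [ht.1]
    have ht0' : 0 < t' := by linarith [ht'.1]
    simp only at h
    rw [div_eq_div_iff ht0.ne' ht0'.ne'] at h
    exact (mul_left_cancel₀ hx0.ne' h).symm
  have h := integral_image_eq_integral_abs_deriv_smul measurableSet_Icc hder hinj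
    (fun w => ‖AA a w‖ * w ^ (-(5 / 2) : ℝ))
  rw [himg] at h
  rw [h, ← integral_const_mul]
  refine setIntegral_congr_fun measurableSet_Icc fun t ht => ?_
  have ht0 : 0 < t := by linarith [ht.1]
  simp only [smul_eq_mul]
  rw [abs_neg, abs_of_pos (by positivity), Real.div_rpow hx0.le ht0.le]
  have e1 : x ^ (3 / 2 : ℝ) * (x * x ^ (-(5 / 2) : ℝ)) = 1 := by
    nth_rewrite 2 [← Real.rpow_one x]
    rw [← Real.rpow_add hx0, ← Real.rpow_add hx0]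
    norm_num
  have e2 : (t ^ 2)⁻¹ * (t ^ (-(5 / 2) : ℝ))⁻¹ = t ^ (1 / 2 : ℝ) := by
    rw [← Real.rpow_natCast, ← Real.rpow_neg ht0.le, ← Real.rpow_neg ht0.le, ← Real.rpow_add ht0]
    norm_num
  calc t ^ (1 / 2 : ℝ) * ‖AA a (x / t)‖ = (x ^ (3 / 2 : ℝ) * (x * x ^ (-(5 / 2) : ℝ))) *
        ((t ^ 2)⁻¹ * (t ^ (-(5 / 2) : ℝ))⁻¹) * ‖AA a (x / t)‖ := by rw [e1, e2]; ring
    _ = _ := by
      rw [div_eq_mul_inv, div_eq_mul_inv]
      ring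

/-- Partial summation with the logarithm. -/
lemma abel (a : ℕ → ℂ) (ha0 : a 0 = 0) {x : ℝ} (hx : 1 ≤ x) :
    ‖AA a x‖ * Real.log x ≤ ‖∑ n ∈ Finset.Icc 1 ⌊x⌋₊, a n * (Real.log n : ℂ)‖ +
      x ^ (3 / 2 : ℝ) * J a x := by
  have hx0 : 0 < x := by linarith
  have hA : ∀ t : ℝ, ∑ k ∈ Finset.Icc 0 ⌊t⌋₊, a k = AA a t := by
    intro t
    rw [AA, Finset.Icc_eq_cons_Ioc (Nat.zero_le _), Finset.sum_cons, ha0, zero_add]
    rfl
  have hd : ∀ t ∈ Icc (1 : ℝ) x, HasDerivAt (fun t : ℝ => (Real.log t : ℂ)) ((t⁻¹ : ℝ) : ℂ) t := by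
    intro t ht
    have ht0 : t ≠ 0 := by linarith [ht.1]
    exact (Real.hasDerivAt_log ht0).ofReal_comp
  have hdi : IntegrableOn (deriv fun t : ℝ => (Real.log t : ℂ)) (Icc 1 x) := by
    have h1 : IntegrableOn (fun t : ℝ => ((t⁻¹ : ℝ) : ℂ)) (Icc 1 x) := by
      refine ContinuousOn.integrableOn_Icc ?_
      refine Complex.continuous_ofReal.comp_continuousOn ?_
      exact continuousOn_inv₀.mono fun t ht => by
        have : (0 : ℝ) < t := by linarith [ht.1]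
        exact this.ne'
    exact h1.congr_fun (fun t ht => ((hd t ht).deriv).symm) measurableSet_Icc
  have h := sum_mul_eq_sub_integral_mul₀ (f := fun t : ℝ => (Real.log t : ℂ)) a ha0 x
    (fun t ht => (hd t ht).differentiableAt) hdi
  rw [hA] at h
  simp_rw [hA] at h
  have h0 : ∑ k ∈ Finset.Icc 0 ⌊x⌋₊, (Real.log (k : ℝ) : ℂ) * a k =
      ∑ n ∈ Finset.Icc 1 ⌊x⌋₊, a n * (Real.log n : ℂ) := by
    rw [Finset.Icc_eq_cons_Ioc (Nat.zero_le _), Finset.sum_cons, ha0, mul_zero, zero_add]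
    exact Finset.sum_congr rfl fun n _ => mul_comm _ _
  rw [h0] at h
  have h1 : (Real.log x : ℂ) * AA a x = ∑ n ∈ Finset.Icc 1 ⌊x⌋₊, a n * (Real.log n : ℂ) +
      ∫ t in Ioc 1 x, deriv (fun t : ℝ => (Real.log t : ℂ)) t * AA a t := by
    rw [h]; ring
  have h2 : ‖AA a x‖ * Real.log x = ‖(Real.log x : ℂ) * AA a x‖ := by
    rw [norm_mul, Complex.norm_real, Real.norm_of_nonneg (Real.log_nonneg hx), mul_comm]
  rw [h2, h1]
  refine (norm_add_le _ _).trans (add_le_add le_rfl ?_)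
  rw [J_eq a hx, ← integral_const_mul, integral_Icc_eq_integral_Ioc]
  refine (norm_integral_le_integral_norm _).trans ?_
  refine setIntegral_mono_on ?_ ?_ measurableSet_Ioc fun t ht => ?_
  · have h3 : IntegrableOn (fun w : ℝ => ‖AA a w‖ * w⁻¹) (Icc 1 x) := by
      refine integrableOn_mul a (by fun_prop) (B := 1) fun w hw => ?_
      have hw0 : (0 : ℝ) < w := by linarith [hw.1]
      rw [abs_of_pos (inv_pos.mpr hw0)]
      exact inv_le_one_of_one_le₀ hw.1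
    refine (h3.mono_set Ioc_subset_Icc_self).congr_fun (fun t ht => ?_) measurableSet_Ioc
    have ht' : t ∈ Icc 1 x := Ioc_subset_Icc_self ht
    have ht0 : (0 : ℝ) < t := by linarith [ht'.1]
    simp only
    rw [(hd t ht').deriv, norm_mul, Complex.norm_real, Real.norm_of_nonneg (inv_pos.mpr ht0).le,
      mul_comm]
  · exact ((integrableOn_J a x).mono_set Ioc_subset_Icc_self).const_mul _
  · have ht' : t ∈ Icc 1 x := Ioc_subset_Icc_self ht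
    have ht0 : (0 : ℝ) < t := by linarith [ht'.1]
    rw [(hd t ht').deriv, norm_mul, Complex.norm_real, Real.norm_of_nonneg (inv_pos.mpr ht0).le]
    have h4 : t ^ (3 / 2 : ℝ) ≤ x ^ (3 / 2 : ℝ) := Real.rpow_le_rpow ht0.le ht'.2 (by norm_num)
    have h5 : t⁻¹ = t ^ (3 / 2 : ℝ) * t ^ (-(5 / 2) : ℝ) := by
      rw [← Real.rpow_add ht0, ← Real.rpow_neg_one]
      norm_num
    rw [h5]
    have h6 : 0 ≤ t ^ (-(5 / 2) : ℝ) := by positivity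
    calc t ^ (3 / 2 : ℝ) * t ^ (-(5 / 2) : ℝ) * ‖AA a t‖ ≤
          x ^ (3 / 2 : ℝ) * t ^ (-(5 / 2) : ℝ) * ‖AA a t‖ := by gcongr
      _ = _ := by ring

/-- The convolution identity for the summatory function. -/
lemma conv {a : ℕ → ℂ} {L : ℕ → ℝ} (ha0 : a 0 = 0) (hL0 : L 0 = 0)
    (h : ∀ n : ℕ, 1 ≤ n → a n * (Real.log n : ℂ) =
      ∑ p ∈ n.divisorsAntidiagonal, a p.1 * (L p.2 : ℂ)) (x : ℝ) :
    ∑ n ∈ Finset.Icc 1 ⌊x⌋₊, a n * (Real.log n : ℂ) =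
      ∑ k ∈ Finset.Icc 1 ⌊x⌋₊, (L k : ℂ) * AA a (x / k) := by
  set fa : ArithmeticFunction ℂ := ⟨a, ha0⟩ with hfa
  set fL : ArithmeticFunction ℂ := ⟨fun k => (L k : ℂ), by rw [hL0]; simp⟩ with hfL
  have h1 := ArithmeticFunction.sum_Ioc_mul_eq_sum_sum fL fa ⌊x⌋₊
  have e : Finset.Ioc 0 ⌊x⌋₊ = Finset.Icc 1 ⌊x⌋₊ := rfl
  rw [e] at h1
  have h2 : ∑ n ∈ Finset.Icc 1 ⌊x⌋₊, a n * (Real.log n : ℂ) =
      ∑ n ∈ Finset.Icc 1 ⌊x⌋₊, (fL * fa) n := by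
    refine Finset.sum_congr rfl fun n hn => ?_
    rw [h n (Finset.mem_Icc.mp hn).1, mul_comm fL fa, ArithmeticFunction.mul_apply]
    rfl
  rw [h2, h1]
  refine Finset.sum_congr rfl fun k hk => ?_
  have h3 : ⌊x / (k : ℝ)⌋₊ = ⌊x⌋₊ / k := Nat.floor_div_natCast x k
  rw [AA, h3]
  rfl

/-- The main inequality. -/
theorem main_ineq (hBT : StBT) : ∃ C : ℝ, 0 ≤ C ∧ ∀ (a : ℕ → ℂ) (c Λ : ℕ → ℝ)
    (x θ c₁ c₂ σ τ δ T : ℝ), 1 ≤ x → a 0 = 0 → Λ 0 = 0 → 0 < θ → 0 < δ → δ ≤ 1 / 2 →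
    0 ≤ c₁ → 0 ≤ σ → 2 * (2 * δ) ^ (-3 : ℝ) ≤ T → T ≤ Real.sqrt x →
    (∀ k, |c k| ≤ c₁) → (∀ k, ¬ k.Prime → c k = 0) →
    (∑ k ∈ Finset.Icc 1 ⌊x⌋₊, |Λ k| * (k : ℝ) ^ (-(3 / 2) + θ) ≤ c₂) →
    (∀ n : ℕ, 1 ≤ n → a n * (Real.log n : ℂ) = ∑ p ∈ n.divisorsAntidiagonal,
      a p.1 * ((c p.2 * Real.sqrt p.2 * Real.log p.2 + Λ p.2 : ℝ) : ℂ)) →
    (∀ w : ℝ, Real.sqrt x ≤ w → w ≤ x → ‖AA a w‖ ≤ σ * w ^ (3 / 2 : ℝ)) →
    (∑ n ∈ Finset.Icc 1 ⌊x⌋₊, ‖a n‖ * (n : ℝ) ^ (-(3 / 2) : ℝ) ≤ τ) →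
    ‖AA a x‖ * Real.log x ≤ x ^ (3 / 2 : ℝ) * (J a x + c₂ * (σ + τ * x ^ (-(θ / 2))) +
      c₁ * σ * (Real.log T + Real.log 4) + c₁ * C * (J a x + δ * τ)) := by
  classical
  obtain ⟨C, hC0, hC⟩ := PWiv hBT
  refine ⟨C, hC0, ?_⟩
  intro a c Λ x θ c₁ c₂ σ τ δ T hx ha0 hΛ0 hθ hδ hδ2 hc₁ hσ0 hT hTx hc hcp hΛ hconv hσ hτ
  have hx0 : 0 < x := by linarith
  have hsx : 1 ≤ Real.sqrt x := Real.one_le_sqrt.mpr hx
  have hsx2 : Real.sqrt x * Real.sqrt x = x := Real.mul_self_sqrt hx0.le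
  have hτ0 : 0 ≤ τ := le_trans (Finset.sum_nonneg fun n _ => by positivity) hτ
  have hX : 0 < x ^ (3 / 2 : ℝ) := Real.rpow_pos_of_pos hx0 _
  have hT2 : 2 ≤ T := by
    refine le_trans ?_ hT
    have : 1 ≤ (2 * δ) ^ (-3 : ℝ) :=
      Real.one_le_rpow_of_pos_of_le_one_of_nonpos (by linarith) (by linarith) (by norm_num)
    linarith
  -- the bound for `A(x / k)`
  have hk1 : ∀ k : ℕ, 1 ≤ k → (k : ℝ) ≤ Real.sqrt x →
      ‖AA a (x / k)‖ ≤ σ * (x ^ (3 / 2 : ℝ) * (k : ℝ) ^ (-(3 / 2) : ℝ)) := by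
    intro k hk hkx
    have hk0 : (0 : ℝ) < k := by exact_mod_cast hk
    have hk1 : (1 : ℝ) ≤ k := by exact_mod_cast hk
    have h1 := hσ (x / k) (by rw [le_div_iff₀ hk0]; nlinarith) (div_le_self hx0.le hk1)
    have e : (x / (k : ℝ)) ^ (3 / 2 : ℝ) = x ^ (3 / 2 : ℝ) * (k : ℝ) ^ (-(3 / 2) : ℝ) := by
      rw [Real.div_rpow hx0.le hk0.le, Real.rpow_neg hk0.le, div_eq_mul_inv]
    rw [e] at h1
    exact h1
  have hk2 : ∀ k : ℕ, 1 ≤ k → ‖AA a (x / k)‖ ≤ τ * (x ^ (3 / 2 : ℝ) * (k : ℝ) ^ (-(3 / 2) : ℝ)) := by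
    intro k hk
    have hk0 : (0 : ℝ) < k := by exact_mod_cast hk
    have hk1 : (1 : ℝ) ≤ k := by exact_mod_cast hk
    have h1 := norm_AA_le_rpow (a := a) (s := 3 / 2) (by norm_num) hτ (w := x / k) (by positivity)
      (div_le_self hx0.le hk1)
    have e : (x / (k : ℝ)) ^ (3 / 2 : ℝ) = x ^ (3 / 2 : ℝ) * (k : ℝ) ^ (-(3 / 2) : ℝ) := by
      rw [Real.div_rpow hx0.le hk0.le, Real.rpow_neg hk0.le, div_eq_mul_inv]
    rw [e] at h1
    exact h1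
  have hL0 : c 0 * Real.sqrt (0 : ℕ) * Real.log (0 : ℕ) + Λ 0 = 0 := by
    rw [hΛ0]; simp
  have h1 := abel a ha0 hx
  rw [conv (L := fun k => c k * Real.sqrt k * Real.log k + Λ k) ha0 hL0 hconv x] at h1
  have h2 : ‖∑ k ∈ Finset.Icc 1 ⌊x⌋₊,
      ((c k * Real.sqrt k * Real.log k + Λ k : ℝ) : ℂ) * AA a (x / k)‖ ≤
      ∑ k ∈ Finset.Icc 1 ⌊x⌋₊, |c k| * Real.sqrt k * Real.log k * ‖AA a (x / k)‖ +
        ∑ k ∈ Finset.Icc 1 ⌊x⌋₊, |Λ k| * ‖AA a (x / k)‖ := by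
    rw [← Finset.sum_add_distrib]
    refine (norm_sum_le _ _).trans (Finset.sum_le_sum fun k hk => ?_)
    rw [norm_mul, Complex.norm_real, Real.norm_eq_abs, ← add_mul]
    refine mul_le_mul_of_nonneg_right ?_ (norm_nonneg _)
    refine (abs_add_le _ _).trans (le_of_eq ?_)
    rw [abs_mul, abs_mul, abs_of_nonneg (Real.sqrt_nonneg _),
      abs_of_nonneg (Real.log_natCast_nonneg k)]
  -- the part of `Λ`
  have h3 : ∑ k ∈ Finset.Icc 1 ⌊x⌋₊, |Λ k| * ‖AA a (x / k)‖ ≤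
      x ^ (3 / 2 : ℝ) * (c₂ * (σ + τ * x ^ (-(θ / 2)))) := by
    have h4 : ∀ k ∈ Finset.Icc 1 ⌊x⌋₊, |Λ k| * ‖AA a (x / k)‖ ≤
        |Λ k| * (k : ℝ) ^ (-(3 / 2) + θ) * (x ^ (3 / 2 : ℝ) * (σ + τ * x ^ (-(θ / 2)))) := by
      intro k hk
      have hk' := (Finset.mem_Icc.mp hk).1
      have hk0 : (0 : ℝ) < k := by exact_mod_cast hk'
      have hk1' : (1 : ℝ) ≤ k := by exact_mod_cast hk'
      rw [mul_assoc]
      refine mul_le_mul_of_nonneg_left ?_ (abs_nonneg _)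
      have e1 : (k : ℝ) ^ (-(3 / 2) + θ) = (k : ℝ) ^ (-(3 / 2) : ℝ) * (k : ℝ) ^ θ :=
        Real.rpow_add hk0 _ _
      have e2 : 1 ≤ (k : ℝ) ^ θ := Real.one_le_rpow hk1' hθ.le
      have e3 : 0 ≤ (k : ℝ) ^ (-(3 / 2) : ℝ) := by positivity
      have e4 : 0 ≤ x ^ (-(θ / 2)) := by positivity
      rcases le_or_gt (k : ℝ) (Real.sqrt x) with hkx | hkx
      · refine (hk1 k hk' hkx).trans ?_
        have e5 : 0 ≤ x ^ (3 / 2 : ℝ) * (k : ℝ) ^ (-(3 / 2) : ℝ) := by positivity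
        have e6 : σ ≤ (k : ℝ) ^ θ * (σ + τ * x ^ (-(θ / 2))) := by
          have : 0 ≤ τ * x ^ (-(θ / 2)) := mul_nonneg hτ0 e4
          nlinarith
        calc σ * (x ^ (3 / 2 : ℝ) * (k : ℝ) ^ (-(3 / 2) : ℝ)) ≤
              ((k : ℝ) ^ θ * (σ + τ * x ^ (-(θ / 2)))) *
                (x ^ (3 / 2 : ℝ) * (k : ℝ) ^ (-(3 / 2) : ℝ)) := mul_le_mul_of_nonneg_right e6 e5
          _ = _ := by rw [e1]; ring
      · refine (hk2 k hk').trans ?_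
        have e5 : 0 ≤ x ^ (3 / 2 : ℝ) * (k : ℝ) ^ (-(3 / 2) : ℝ) := by positivity
        have e7 : 1 ≤ (k : ℝ) ^ θ * x ^ (-(θ / 2)) := by
          have e8 : x ^ (θ / 2) ≤ (k : ℝ) ^ θ := by
            have e9 : x ^ (θ / 2) = (Real.sqrt x) ^ θ := by
              rw [Real.sqrt_eq_rpow, ← Real.rpow_mul hx0.le]
              congr 1
              ring
            rw [e9]
            exact Real.rpow_le_rpow (Real.sqrt_nonneg _) hkx.le hθ.le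
          rw [Real.rpow_neg hx0.le, ← div_eq_mul_inv, le_div_iff₀ (Real.rpow_pos_of_pos hx0 _),
            one_mul]
          exact e8
        have e6 : τ ≤ (k : ℝ) ^ θ * (σ + τ * x ^ (-(θ / 2))) := by
          have e10 : τ * 1 ≤ τ * ((k : ℝ) ^ θ * x ^ (-(θ / 2))) := mul_le_mul_of_nonneg_left e7 hτ0
          have e11 : 0 ≤ (k : ℝ) ^ θ * σ := mul_nonneg (by linarith) hσ0
          linarith
        calc τ * (x ^ (3 / 2 : ℝ) * (k : ℝ) ^ (-(3 / 2) : ℝ)) ≤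
              ((k : ℝ) ^ θ * (σ + τ * x ^ (-(θ / 2)))) *
                (x ^ (3 / 2 : ℝ) * (k : ℝ) ^ (-(3 / 2) : ℝ)) := mul_le_mul_of_nonneg_right e6 e5
          _ = _ := by rw [e1]; ring
    refine (Finset.sum_le_sum h4).trans ?_
    rw [← Finset.sum_mul]
    have h5 : 0 ≤ x ^ (3 / 2 : ℝ) * (σ + τ * x ^ (-(θ / 2))) := by positivity
    calc _ ≤ c₂ * (x ^ (3 / 2 : ℝ) * (σ + τ * x ^ (-(θ / 2)))) := mul_le_mul_of_nonneg_right hΛ h5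
      _ = _ := by ring
  -- the primes
  have h6 : ∑ k ∈ Finset.Icc 1 ⌊x⌋₊, |c k| * Real.sqrt k * Real.log k * ‖AA a (x / k)‖ ≤
      x ^ (3 / 2 : ℝ) * (c₁ * σ * (Real.log T + Real.log 4) + c₁ * C * (J a x + δ * τ)) := by
    have h7 : ∑ k ∈ Finset.Icc 1 ⌊x⌋₊, |c k| * Real.sqrt k * Real.log k * ‖AA a (x / k)‖ =
        ∑ k ∈ (Finset.Icc 1 ⌊x⌋₊).filter Nat.Prime,
          |c k| * Real.sqrt k * Real.log k * ‖AA a (x / k)‖ := by
      rw [Finset.sum_filter]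
      refine Finset.sum_congr rfl fun k _ => ?_
      split_ifs with hk
      · rfl
      · rw [hcp k hk, abs_zero]; ring
    have h8 : ∀ k : ℕ, |c k| * Real.sqrt k * Real.log k * ‖AA a (x / k)‖ ≤
        c₁ * ((k : ℝ) ^ (1 / 2 : ℝ) * Real.log k * ‖AA a (x / k)‖) := by
      intro k
      rw [Real.sqrt_eq_rpow]
      have h9 : 0 ≤ (k : ℝ) ^ (1 / 2 : ℝ) * Real.log k * ‖AA a (x / k)‖ := by
        have := Real.log_natCast_nonneg k
        positivity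
      calc _ = |c k| * ((k : ℝ) ^ (1 / 2 : ℝ) * Real.log k * ‖AA a (x / k)‖) := by ring
        _ ≤ _ := mul_le_mul_of_nonneg_right (hc k) h9
    rw [h7, ← Finset.sum_filter_add_sum_filter_not _ (fun k : ℕ => T < k)]
    have h10 : ∑ k ∈ ((Finset.Icc 1 ⌊x⌋₊).filter Nat.Prime).filter (fun k : ℕ => T < k),
        |c k| * Real.sqrt k * Real.log k * ‖AA a (x / k)‖ ≤
        x ^ (3 / 2 : ℝ) * (c₁ * C * (J a x + δ * τ)) := by
      rw [Finset.filter_filter]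
      refine (Finset.sum_le_sum fun k _ => h8 k).trans ?_
      rw [← Finset.mul_sum]
      have h11 := hC a x δ T hx hδ hδ2 hT
      rw [subst a hx] at h11
      have h12 : C * (x ^ (3 / 2 : ℝ) * J a x +
          δ * x ^ (3 / 2 : ℝ) * ∑ n ∈ Finset.Icc 1 ⌊x⌋₊, ‖a n‖ * (n : ℝ) ^ (-(3 / 2) : ℝ)) ≤
          C * (x ^ (3 / 2 : ℝ) * J a x + δ * x ^ (3 / 2 : ℝ) * τ) := by gcongr
      calc _ ≤ c₁ * (C * (x ^ (3 / 2 : ℝ) * J a x + δ * x ^ (3 / 2 : ℝ) * τ)) :=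
            mul_le_mul_of_nonneg_left (h11.trans h12) hc₁
        _ = _ := by ring
    have h13 : ∑ k ∈ ((Finset.Icc 1 ⌊x⌋₊).filter Nat.Prime).filter (fun k : ℕ => ¬ T < k),
        |c k| * Real.sqrt k * Real.log k * ‖AA a (x / k)‖ ≤
        x ^ (3 / 2 : ℝ) * (c₁ * σ * (Real.log T + Real.log 4)) := by
      have h14 : ∀ k ∈ ((Finset.Icc 1 ⌊x⌋₊).filter Nat.Prime).filter (fun k : ℕ => ¬ T < k),
          |c k| * Real.sqrt k * Real.log k * ‖AA a (x / k)‖ ≤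
          x ^ (3 / 2 : ℝ) * (c₁ * σ) * (Real.log k / k) := by
        intro k hk
        rw [Finset.mem_filter, Finset.mem_filter, Finset.mem_Icc, not_lt] at hk
        obtain ⟨⟨⟨hk1', -⟩, -⟩, hkT⟩ := hk
        have hk0 : (0 : ℝ) < k := by exact_mod_cast hk1'
        refine (h8 k).trans ?_
        have hlog := Real.log_natCast_nonneg k
        have h15 := hk1 k hk1' (hkT.trans hTx)
        have e1 : (k : ℝ) ^ (1 / 2 : ℝ) * (k : ℝ) ^ (-(3 / 2) : ℝ) = (k : ℝ)⁻¹ := by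
          rw [← Real.rpow_add hk0, ← Real.rpow_neg_one]
          norm_num
        calc c₁ * ((k : ℝ) ^ (1 / 2 : ℝ) * Real.log k * ‖AA a (x / k)‖) ≤
              c₁ * ((k : ℝ) ^ (1 / 2 : ℝ) * Real.log k *
                (σ * (x ^ (3 / 2 : ℝ) * (k : ℝ) ^ (-(3 / 2) : ℝ)))) := by gcongr
          _ = x ^ (3 / 2 : ℝ) * (c₁ * σ) * (Real.log k *
                ((k : ℝ) ^ (1 / 2 : ℝ) * (k : ℝ) ^ (-(3 / 2) : ℝ))) := by ring
          _ = _ := by rw [e1, ← div_eq_mul_inv (Real.log (k : ℝ))]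
      refine (Finset.sum_le_sum h14).trans ?_
      rw [← Finset.mul_sum, mul_assoc (x ^ (3 / 2 : ℝ))]
      refine mul_le_mul_of_nonneg_left ?_ hX.le
      refine mul_le_mul_of_nonneg_left ?_ (mul_nonneg hc₁ hσ0)
      have hfT : 1 ≤ ⌊T⌋₊ := Nat.one_le_floor_iff _ |>.mpr (by linarith)
      have h16 := MP_bdd9a3_nt.mertens_upper ⌊T⌋₊ hfT
      have h17 : ∑ k ∈ ((Finset.Icc 1 ⌊x⌋₊).filter Nat.Prime).filter (fun k : ℕ => ¬ T < k),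
          Real.log k / k ≤ ∑ p ∈ (Finset.Icc 1 ⌊T⌋₊).filter Nat.Prime, Real.log p / (p : ℝ) := by
        refine Finset.sum_le_sum_of_subset_of_nonneg ?_ fun p _ _ => ?_
        · intro k hk
          rw [Finset.mem_filter, Finset.mem_filter, Finset.mem_Icc, not_lt] at hk
          rw [Finset.mem_filter, Finset.mem_Icc]
          exact ⟨⟨hk.1.1.1, Nat.le_floor hk.2⟩, hk.1.2⟩
        · exact div_nonneg (Real.log_natCast_nonneg p) (Nat.cast_nonneg p)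
      have h18 : Real.log ⌊T⌋₊ ≤ Real.log T :=
        Real.log_le_log (by exact_mod_cast hfT) (Nat.floor_le (by linarith))
      linarith
    refine (add_le_add h10 h13).trans (le_of_eq ?_)
    ring
  calc ‖AA a x‖ * Real.log x ≤ _ := h1
    _ ≤ (∑ k ∈ Finset.Icc 1 ⌊x⌋₊, |c k| * Real.sqrt k * Real.log k * ‖AA a (x / k)‖ +
        ∑ k ∈ Finset.Icc 1 ⌊x⌋₊, |Λ k| * ‖AA a (x / k)‖) + x ^ (3 / 2 : ℝ) * J a x :=
        add_le_add h2 le_rfl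
    _ ≤ _ := by linarith [h3, h6]

end PW69

end Pool.Agent.Lib.MP_bf61d2_nt.MV59
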