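import Pool.Agent.Lib.MP_bf61d2_nt.MV59.PL59

set_option autoImplicit false

/-!
MEAN VALUES, module PW(iv): the sum over the primes of the summatory function is bounded by an
integral, by the Brun-Titchmarsh inequality.
-/

namespace Pool.Agent.Lib.MP_bf61d2_nt.MV59

open MeasureTheory Set Filter Topology

namespace IV7

/-- Brun-Titchmarsh for the primes of a set of large primes in `[u / (1 + δ), u]`. -/
lemma log_sum {C : ℝ} (hC0 : 0 ≤ C) (hC : ∀ y h : ℝ, 1 ≤ y → y ^ (2 / 3 : ℝ) ≤ h → h ≤ y →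
      ∑ p ∈ (Finset.Ioc ⌊y⌋₊ ⌊y + h⌋₊).filter Nat.Prime, Real.log p ≤ C * h) {δ T : ℝ}
    (hδ : 0 < δ) (hδ2 : δ ≤ 1 / 2) (hT : 2 * (2 * δ) ^ (-3 : ℝ) ≤ T) (P : Finset ℕ)
    (hP : ∀ p ∈ P, p.Prime ∧ T < p) {u : ℝ} (hu : 0 ≤ u) :
    ∑ p ∈ P.filter (fun p : ℕ => u ≤ p * (1 + δ) ∧ (p : ℝ) ≤ u), Real.log p ≤ 2 * C * δ * u := by
  classical
  rcases (P.filter (fun p : ℕ => u ≤ p * (1 + δ) ∧ (p : ℝ) ≤ u)).eq_empty_or_nonempty with he | hne
  · rw [he, Finset.sum_empty]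
    positivity
  obtain ⟨p₀, hp₀⟩ := hne
  rw [Finset.mem_filter] at hp₀
  obtain ⟨hp₀P, -, hp₀u⟩ := hp₀
  have hTp := (hP p₀ hp₀P).2
  set y : ℝ := u / (1 + 2 * δ) with hy
  have h2δ : 0 < 2 * δ := by linarith
  have hden : 0 < 1 + 2 * δ := by linarith
  have hyu : y * (1 + 2 * δ) = u := by rw [hy]; field_simp
  set Q : ℝ := (2 * δ) ^ (-3 : ℝ) with hQ
  have hQ1 : 1 ≤ Q := Real.one_le_rpow_of_pos_of_le_one_of_nonpos h2δ (by linarith) (by norm_num)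
  have hyQ : Q ≤ y := by nlinarith
  have hy1 : 1 ≤ y := hQ1.trans hyQ
  have hy0 : 0 < y := by linarith
  have hy23 : y ^ (2 / 3 : ℝ) ≤ 2 * δ * y := by
    have h1 : Q ^ (1 / 3 : ℝ) ≤ y ^ (1 / 3 : ℝ) :=
      Real.rpow_le_rpow (by linarith) hyQ (by norm_num)
    have h2 : Q ^ (1 / 3 : ℝ) = (2 * δ)⁻¹ := by
      rw [hQ, ← Real.rpow_mul h2δ.le, show (-3 : ℝ) * (1 / 3) = -1 by norm_num, Real.rpow_neg_one]
    rw [h2] at h1
    have h3 : y = y ^ (2 / 3 : ℝ) * y ^ (1 / 3 : ℝ) := by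
      rw [← Real.rpow_add hy0]
      norm_num
    have h4 : 0 ≤ y ^ (2 / 3 : ℝ) := by positivity
    calc y ^ (2 / 3 : ℝ) = 2 * δ * (y ^ (2 / 3 : ℝ) * (2 * δ)⁻¹) := by field_simp
      _ ≤ 2 * δ * (y ^ (2 / 3 : ℝ) * y ^ (1 / 3 : ℝ)) := by gcongr
      _ = 2 * δ * y := by rw [← h3]
  have hh := hC y (2 * δ * y) hy1 hy23 (by nlinarith)
  have hsum : y + 2 * δ * y = u := by linarith
  rw [hsum] at hh
  have hsub : P.filter (fun p : ℕ => u ≤ p * (1 + δ) ∧ (p : ℝ) ≤ u) ⊆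
      (Finset.Ioc ⌊y⌋₊ ⌊u⌋₊).filter Nat.Prime := by
    intro p hp
    rw [Finset.mem_filter] at hp
    obtain ⟨hpP, hp1, hp2⟩ := hp
    have hpp := (hP p hpP).1
    have hp0 : (0 : ℝ) < p := by exact_mod_cast hpp.pos
    rw [Finset.mem_filter, Finset.mem_Ioc]
    refine ⟨⟨(Nat.floor_lt hy0.le).mpr ?_, Nat.le_floor hp2⟩, hpp⟩
    by_contra hcon
    push Not at hcon
    nlinarith
  calc _ ≤ ∑ p ∈ (Finset.Ioc ⌊y⌋₊ ⌊u⌋₊).filter Nat.Prime, Real.log p :=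
        Finset.sum_le_sum_of_subset_of_nonneg hsub fun p _ _ => Real.log_natCast_nonneg p
    _ ≤ C * (2 * δ * y) := hh
    _ = 2 * C * δ * y := by ring
    _ ≤ 2 * C * δ * u := by
      apply mul_le_mul_of_nonneg_left _ (by positivity)
      nlinarith

lemma norm_AA_le (a : ℕ → ℂ) {v w : ℝ} (hv : 0 ≤ v) (hvw : v ≤ w) :
    ‖AA a w‖ ≤ ‖AA a v‖ + ∑ n ∈ (Finset.Icc 1 ⌊w⌋₊).filter (fun n : ℕ => v < n), ‖a n‖ := by
  classical
  have h1 := Finset.sum_filter_add_sum_filter_not (Finset.Icc 1 ⌊w⌋₊) (fun n : ℕ => v < n) a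
  have h2 : (Finset.Icc 1 ⌊w⌋₊).filter (fun n : ℕ => ¬ v < n) = Finset.Icc 1 ⌊v⌋₊ := by
    ext n
    rw [Finset.mem_filter, Finset.mem_Icc, Finset.mem_Icc, not_lt]
    constructor
    · rintro ⟨⟨h3, -⟩, h4⟩
      exact ⟨h3, Nat.le_floor h4⟩
    · rintro ⟨h3, h4⟩
      have h5 := (Nat.le_floor_iff hv).mp h4
      exact ⟨⟨h3, Nat.le_floor (h5.trans hvw)⟩, h5⟩
  rw [h2] at h1
  rw [AA, ← h1]
  refine (norm_add_le _ _).trans ?_
  rw [add_comm]
  exact add_le_add le_rfl (norm_sum_le _ _)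

end IV7

theorem PWiv (hBT : StBT) : ∃ C : ℝ, 0 ≤ C ∧ ∀ (a : ℕ → ℂ) (x δ T : ℝ), 1 ≤ x → 0 < δ →
    δ ≤ 1 / 2 → 2 * (2 * δ) ^ (-3 : ℝ) ≤ T →
    ∑ p ∈ (Finset.Icc 1 ⌊x⌋₊).filter (fun p : ℕ => p.Prime ∧ T < p),
      (p : ℝ) ^ (1 / 2 : ℝ) * Real.log p * ‖AA a (x / p)‖ ≤
    C * ((∫ t in (1 : ℝ)..x, t ^ (1 / 2 : ℝ) * ‖AA a (x / t)‖) +
      δ * x ^ (3 / 2 : ℝ) * ∑ n ∈ Finset.Icc 1 ⌊x⌋₊, ‖a n‖ * (n : ℝ) ^ (-(3 / 2) : ℝ)) := by
  classical
  obtain ⟨C₀, hC₀⟩ := hBT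
  set C : ℝ := max C₀ 0 with hCdef
  have hC0 : 0 ≤ C := le_max_right _ _
  have hC : ∀ y h : ℝ, 1 ≤ y → y ^ (2 / 3 : ℝ) ≤ h → h ≤ y →
      ∑ p ∈ (Finset.Ioc ⌊y⌋₊ ⌊y + h⌋₊).filter Nat.Prime, Real.log p ≤ C * h := by
    intro y h hy hh1 hh2
    refine (hC₀ y h hy hh1 hh2).trans ?_
    refine mul_le_mul_of_nonneg_right (le_max_left _ _) ?_
    exact le_trans (by positivity) hh1
  refine ⟨3 * C, by positivity, ?_⟩
  intro a x δ T hx hδ hδ2 hT
  set P := (Finset.Icc 1 ⌊x⌋₊).filter (fun p : ℕ => p.Prime ∧ T < p) with hPdef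
  have hP : ∀ p ∈ P, p.Prime ∧ T < p := fun p hp => (Finset.mem_filter.mp hp).2
  have hPx : ∀ p ∈ P, (p : ℝ) ≤ x := fun p hp => by
    have h1 := (Finset.mem_Icc.mp (Finset.mem_filter.mp hp).1).2
    exact (Nat.le_floor_iff (by linarith)).mp h1
  have hP1 : ∀ p ∈ P, (2 : ℝ) ≤ p := fun p hp => by exact_mod_cast (hP p hp).1.two_le
  clear_value P
  have hx0 : 0 < x := by linarith
  set F : ℝ → ℝ := fun t => ‖AA a (x / t)‖ with hF
  have hFm : Measurable F := ((measurable_AA a).comp (measurable_const.div measurable_id)).norm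
  set M : ℝ := ∑ n ∈ Finset.Icc 1 ⌊x⌋₊, ‖a n‖ with hM
  have hF0 : ∀ t, 0 ≤ F t := fun t => norm_nonneg _
  have hFM : ∀ t, 1 ≤ t → F t ≤ M := by
    intro t ht
    have h1 : x / t ≤ x := div_le_self hx0.le ht
    have h2 : Finset.Icc 1 ⌊x / t⌋₊ ⊆ Finset.Icc 1 ⌊x⌋₊ :=
      Finset.Icc_subset_Icc_right (Nat.floor_le_floor h1)
    exact (norm_sum_le _ _).trans (Finset.sum_le_sum_of_subset_of_nonneg h2
      fun _ _ _ => norm_nonneg _)
  have hFz : ∀ t, x < t → F t = 0 := by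
    intro t ht
    have h1 : ⌊x / t⌋₊ = 0 := by
      rw [Nat.floor_eq_zero, div_lt_one (by linarith)]
      exact ht
    simp [hF, AA, h1]
  have hFint : ∀ c d : ℝ, 1 ≤ c → IntegrableOn F (Ioc c d) := by
    intro c d hc
    refine Measure.integrableOn_of_bounded (M := M) (by simp) hFm.aestronglyMeasurable ?_
    refine (ae_restrict_iff' measurableSet_Ioc).mpr (Eventually.of_forall fun t ht => ?_)
    rw [Real.norm_eq_abs, abs_of_nonneg (hF0 t)]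
    exact hFM t (hc.trans ht.1.le)
  set R : ℕ → ℝ := fun p => ∑ n ∈ (Finset.Icc 1 ⌊x⌋₊).filter
    (fun n : ℕ => x / n ≤ p * (1 + δ) ∧ (p : ℝ) ≤ x / n), ‖a n‖ with hR
  -- one prime
  have hone : ∀ p ∈ P, (p : ℝ) ^ (1 / 2 : ℝ) * Real.log p * F p ≤
      δ⁻¹ * ((p : ℝ) ^ (-(1 / 2) : ℝ) * Real.log p * ∫ t in Ioc (p : ℝ) (p * (1 + δ)), F t) +
        (p : ℝ) ^ (1 / 2 : ℝ) * Real.log p * R p := by
    intro p hp
    have hp2 := hP1 p hp
    have hp0 : (0 : ℝ) < p := by linarith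
    have hle : ∀ t ∈ Ioc (p : ℝ) (p * (1 + δ)), F p - R p ≤ F t := by
      intro t ht
      have ht0 : 0 < t := lt_trans hp0 ht.1
      have h1 := IV7.norm_AA_le a (v := x / t) (w := x / p) (by positivity)
        (div_le_div_of_nonneg_left hx0.le hp0 ht.1.le)
      have h2 : ∑ n ∈ (Finset.Icc 1 ⌊x / p⌋₊).filter (fun n : ℕ => x / t < n), ‖a n‖ ≤ R p := by
        refine Finset.sum_le_sum_of_subset_of_nonneg (fun n hn => ?_) fun _ _ _ => norm_nonneg _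
        rw [Finset.mem_filter, Finset.mem_Icc] at hn
        obtain ⟨⟨hn1, hn2⟩, hn3⟩ := hn
        have hn0 : (0 : ℝ) < n := by exact_mod_cast hn1
        have hn4 : (n : ℝ) ≤ x / p := (Nat.le_floor_iff (by positivity)).mp hn2
        rw [le_div_iff₀ hp0] at hn4
        rw [div_lt_iff₀ ht0] at hn3
        rw [Finset.mem_filter, Finset.mem_Icc]
        refine ⟨⟨hn1, Nat.le_floor ?_⟩, ?_, ?_⟩
        · nlinarith
        · rw [div_le_iff₀ hn0]
          have := ht.2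
          nlinarith
        · rw [le_div_iff₀ hn0]
          linarith
      simp only [hF]
      linarith
    have hint : (F p - R p) * (δ * p) ≤ ∫ t in Ioc (p : ℝ) (p * (1 + δ)), F t := by
      have h1 : ∫ _t in Ioc (p : ℝ) (p * (1 + δ)), (F p - R p) = (F p - R p) * (δ * p) := by
        rw [setIntegral_const, smul_eq_mul, Real.volume_real_Ioc_of_le (by nlinarith)]
        ring
      rw [← h1]
      exact setIntegral_mono_on (integrableOn_const (by simp)) (hFint _ _ (by linarith))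
        measurableSet_Ioc hle
    have hp12 : (p : ℝ) ^ (1 / 2 : ℝ) = (p : ℝ) ^ (-(1 / 2) : ℝ) * p := by
      nth_rw 3 [← Real.rpow_one (p : ℝ)]
      rw [← Real.rpow_add hp0]
      norm_num
    have hlog : 0 ≤ Real.log p := Real.log_natCast_nonneg p
    have hpm : 0 ≤ (p : ℝ) ^ (-(1 / 2) : ℝ) := by positivity
    have h3 := mul_le_mul_of_nonneg_left hint (mul_nonneg (inv_nonneg.mpr hδ.le)
      (mul_nonneg hpm hlog))
    have h4 : δ⁻¹ * ((p : ℝ) ^ (-(1 / 2) : ℝ) * Real.log p) * ((F p - R p) * (δ * p)) =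
        (p : ℝ) ^ (1 / 2 : ℝ) * Real.log p * F p - (p : ℝ) ^ (1 / 2 : ℝ) * Real.log p * R p := by
      rw [hp12]
      field_simp
    rw [h4] at h3
    have h5 : δ⁻¹ * ((p : ℝ) ^ (-(1 / 2) : ℝ) * Real.log p) *
        ∫ t in Ioc (p : ℝ) (p * (1 + δ)), F t =
        δ⁻¹ * ((p : ℝ) ^ (-(1 / 2) : ℝ) * Real.log p *
          ∫ t in Ioc (p : ℝ) (p * (1 + δ)), F t) := by ring
    rw [h5] at h3
    linarith
  -- the first sum
  have hS1 : ∑ p ∈ P, (p : ℝ) ^ (-(1 / 2) : ℝ) * Real.log p *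
      ∫ t in Ioc (p : ℝ) (p * (1 + δ)), F t ≤
      3 * C * δ * ∫ t in (1 : ℝ)..x, t ^ (1 / 2 : ℝ) * F t := by
    have h1 : ∀ p ∈ P, (p : ℝ) ^ (-(1 / 2) : ℝ) * Real.log p *
        ∫ t in Ioc (p : ℝ) (p * (1 + δ)), F t =
        ∫ t in Ioc 1 x, (Ioc (p : ℝ) (p * (1 + δ))).indicator
          (fun t => (p : ℝ) ^ (-(1 / 2) : ℝ) * Real.log p * F t) t := by
      intro p hp
      have hp2 := hP1 p hp
      rw [setIntegral_indicator measurableSet_Ioc, ← integral_const_mul]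
      have h2 : ∫ t in Ioc (p : ℝ) (p * (1 + δ)), (p : ℝ) ^ (-(1 / 2) : ℝ) * Real.log p * F t =
          ∫ t in Ioc 1 x ∩ Ioc (p : ℝ) (p * (1 + δ)),
            (p : ℝ) ^ (-(1 / 2) : ℝ) * Real.log p * F t := by
        refine setIntegral_eq_of_subset_of_forall_sdiff_eq_zero measurableSet_Ioc
          inter_subset_right fun t ht => ?_
        obtain ⟨ht1, ht2⟩ := ht
        have ht3 : x < t := by
          by_contra hcon
          push Not at hcon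
          exact ht2 ⟨⟨by linarith [ht1.1], hcon⟩, ht1⟩
        rw [hFz t ht3, mul_zero]
      exact h2
    rw [Finset.sum_congr rfl h1]
    have hintp : ∀ p ∈ P, IntegrableOn (fun t => (Ioc (p : ℝ) (p * (1 + δ))).indicator
          (fun t => (p : ℝ) ^ (-(1 / 2) : ℝ) * Real.log p * F t) t) (Ioc 1 x) := by
      intro p hp
      exact (Integrable.const_mul (hFint 1 x le_rfl) _).indicator measurableSet_Ioc
    rw [← integral_finsetSum _ hintp, intervalIntegral.integral_of_le hx, ← integral_const_mul]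
    have hint2 : IntegrableOn (fun t => 3 * C * δ * (t ^ (1 / 2 : ℝ) * F t)) (Ioc 1 x) := by
      refine Integrable.const_mul ?_ _
      refine Measure.integrableOn_of_bounded (M := x ^ (1 / 2 : ℝ) * M) (by simp)
        (((measurable_id.pow_const _).mul hFm).aestronglyMeasurable) ?_
      refine (ae_restrict_iff' measurableSet_Ioc).mpr (Eventually.of_forall fun t ht => ?_)
      have ht0 : 0 < t := by linarith [ht.1]
      rw [Real.norm_eq_abs, abs_of_nonneg (mul_nonneg (by positivity) (hF0 t))]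
      exact mul_le_mul (Real.rpow_le_rpow ht0.le ht.2 (by norm_num)) (hFM t ht.1.le) (hF0 t)
        (by positivity)
    refine setIntegral_mono_on (integrable_finsetSum _ hintp) hint2 measurableSet_Ioc
      fun t ht => ?_
    have ht0 : 0 < t := by linarith [ht.1]
    have hG := IV7.log_sum hC0 hC hδ hδ2 hT P hP (u := t) ht0.le
    have h3 : ∑ p ∈ P, (Ioc (p : ℝ) (p * (1 + δ))).indicator
        (fun t => (p : ℝ) ^ (-(1 / 2) : ℝ) * Real.log p * F t) t ≤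
        ∑ p ∈ P.filter (fun p : ℕ => t ≤ p * (1 + δ) ∧ (p : ℝ) ≤ t),
          (3 / 2 * t ^ (-(1 / 2) : ℝ)) * Real.log p * F t := by
      rw [Finset.sum_filter]
      apply Finset.sum_le_sum
      intro p hp
      by_cases hm : t ∈ Ioc (p : ℝ) (p * (1 + δ))
      · rw [indicator_of_mem hm, if_pos ⟨hm.2, hm.1.le⟩]
        have hp2 := hP1 p hp
        have hp0 : (0 : ℝ) < p := by linarith
        have h4 : (p : ℝ) ^ (-(1 / 2) : ℝ) ≤ 3 / 2 * t ^ (-(1 / 2) : ℝ) := by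
          have h5 : t ≤ 2 * p := by
            have := hm.2
            nlinarith
          have h6 : (2 * (p : ℝ)) ^ (-(1 / 2) : ℝ) ≤ t ^ (-(1 / 2) : ℝ) :=
            Real.rpow_le_rpow_of_nonpos ht0 h5 (by norm_num)
          rw [Real.mul_rpow (by norm_num) hp0.le] at h6
          have h7 : (2 / 3 : ℝ) ≤ (2 : ℝ) ^ (-(1 / 2) : ℝ) := by
            rw [Real.rpow_neg (by norm_num), ← Real.sqrt_eq_rpow]
            rw [le_inv_comm₀ (by norm_num) (Real.sqrt_pos.mpr (by norm_num))]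
            rw [Real.sqrt_le_left (by norm_num)]
            norm_num
          have h8 : 0 ≤ (p : ℝ) ^ (-(1 / 2) : ℝ) := by positivity
          nlinarith
        refine mul_le_mul_of_nonneg_right ?_ (hF0 t)
        exact mul_le_mul_of_nonneg_right h4 (Real.log_natCast_nonneg p)
      · rw [indicator_of_notMem hm]
        split_ifs
        · exact mul_nonneg (mul_nonneg (by positivity) (Real.log_natCast_nonneg p)) (hF0 t)
        · exact le_rfl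
    refine h3.trans ?_
    rw [← Finset.sum_mul, ← Finset.mul_sum]
    have h9 : 3 / 2 * t ^ (-(1 / 2) : ℝ) * (2 * C * δ * t) = 3 * C * δ * t ^ (1 / 2 : ℝ) := by
      have h10 : t ^ (1 / 2 : ℝ) = t ^ (-(1 / 2) : ℝ) * t := by
        nth_rw 3 [← Real.rpow_one t]
        rw [← Real.rpow_add ht0]
        norm_num
      rw [h10]
      ring
    calc _ ≤ 3 / 2 * t ^ (-(1 / 2) : ℝ) * (2 * C * δ * t) * F t := by
          apply mul_le_mul_of_nonneg_right _ (hF0 t)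
          exact mul_le_mul_of_nonneg_left hG (by positivity)
      _ = _ := by rw [h9]; ring
  -- the second sum
  have hS2 : ∑ p ∈ P, (p : ℝ) ^ (1 / 2 : ℝ) * Real.log p * R p ≤
      2 * C * δ * x ^ (3 / 2 : ℝ) * ∑ n ∈ Finset.Icc 1 ⌊x⌋₊, ‖a n‖ * (n : ℝ) ^ (-(3 / 2) : ℝ) := by
    have h1 : ∑ p ∈ P, (p : ℝ) ^ (1 / 2 : ℝ) * Real.log p * R p =
        ∑ n ∈ Finset.Icc 1 ⌊x⌋₊, ‖a n‖ *
          ∑ p ∈ P.filter (fun p : ℕ => x / n ≤ p * (1 + δ) ∧ (p : ℝ) ≤ x / n),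
            (p : ℝ) ^ (1 / 2 : ℝ) * Real.log p := by
      simp only [hR, Finset.sum_filter, Finset.mul_sum]
      rw [Finset.sum_comm]
      refine Finset.sum_congr rfl fun n _ => Finset.sum_congr rfl fun p _ => ?_
      split_ifs
      · ring
      · ring
    rw [h1, Finset.mul_sum]
    refine Finset.sum_le_sum fun n hn => ?_
    have hn1 : 1 ≤ n := (Finset.mem_Icc.mp hn).1
    have hn0 : (0 : ℝ) < n := by exact_mod_cast hn1
    have hu : 0 ≤ x / n := by positivity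
    have hG := IV7.log_sum hC0 hC hδ hδ2 hT P hP (u := x / n) hu
    have h2 : ∑ p ∈ P.filter (fun p : ℕ => x / n ≤ p * (1 + δ) ∧ (p : ℝ) ≤ x / n),
        (p : ℝ) ^ (1 / 2 : ℝ) * Real.log p ≤ (x / n) ^ (1 / 2 : ℝ) * (2 * C * δ * (x / n)) := by
      refine le_trans (Finset.sum_le_sum fun p hp => ?_) (le_trans (le_of_eq
        (Finset.mul_sum _ (fun p : ℕ => Real.log p) ((x / n) ^ (1 / 2 : ℝ))).symm)
        (mul_le_mul_of_nonneg_left hG (by positivity)))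
      have hp3 := (Finset.mem_filter.mp hp).2.2
      exact mul_le_mul_of_nonneg_right (Real.rpow_le_rpow (Nat.cast_nonneg _) hp3 (by norm_num))
        (Real.log_natCast_nonneg p)
    have h3 : (x / n) ^ (1 / 2 : ℝ) * (2 * C * δ * (x / n)) =
        2 * C * δ * x ^ (3 / 2 : ℝ) * (n : ℝ) ^ (-(3 / 2) : ℝ) := by
      have h4 : (x / n) ^ (1 / 2 : ℝ) * (x / n) = (x / n) ^ (3 / 2 : ℝ) := by
        nth_rw 2 [← Real.rpow_one (x / n)]
        rw [← Real.rpow_add (by positivity)]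
        norm_num
      have h5 : (x / n) ^ (3 / 2 : ℝ) = x ^ (3 / 2 : ℝ) * (n : ℝ) ^ (-(3 / 2) : ℝ) := by
        rw [Real.div_rpow hx0.le hn0.le, Real.rpow_neg hn0.le, div_eq_mul_inv]
      calc _ = 2 * C * δ * ((x / n) ^ (1 / 2 : ℝ) * (x / n)) := by ring
        _ = _ := by rw [h4, h5]; ring
    calc _ ≤ ‖a n‖ * ((x / n) ^ (1 / 2 : ℝ) * (2 * C * δ * (x / n))) :=
          mul_le_mul_of_nonneg_left h2 (norm_nonneg _)
      _ = _ := by rw [h3]; ring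
  -- conclusion
  have hI0 : 0 ≤ ∫ t in (1 : ℝ)..x, t ^ (1 / 2 : ℝ) * F t := by
    refine intervalIntegral.integral_nonneg hx fun t ht => ?_
    have : 0 ≤ t := by linarith [ht.1]
    exact mul_nonneg (by positivity) (hF0 t)
  have hD0 : 0 ≤ δ * x ^ (3 / 2 : ℝ) * ∑ n ∈ Finset.Icc 1 ⌊x⌋₊, ‖a n‖ * (n : ℝ) ^ (-(3 / 2) : ℝ) := by
    refine mul_nonneg (by positivity) (Finset.sum_nonneg fun n _ => ?_)
    positivity
  calc _ ≤ ∑ p ∈ P, (δ⁻¹ * ((p : ℝ) ^ (-(1 / 2) : ℝ) * Real.log p *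
        ∫ t in Ioc (p : ℝ) (p * (1 + δ)), F t) +
        (p : ℝ) ^ (1 / 2 : ℝ) * Real.log p * R p) := Finset.sum_le_sum hone
    _ = δ⁻¹ * ∑ p ∈ P, ((p : ℝ) ^ (-(1 / 2) : ℝ) * Real.log p *
        ∫ t in Ioc (p : ℝ) (p * (1 + δ)), F t) +
        ∑ p ∈ P, (p : ℝ) ^ (1 / 2 : ℝ) * Real.log p * R p := by
      rw [Finset.sum_add_distrib, Finset.mul_sum]
    _ ≤ δ⁻¹ * (3 * C * δ * ∫ t in (1 : ℝ)..x, t ^ (1 / 2 : ℝ) * F t) +
        2 * C * δ * x ^ (3 / 2 : ℝ) *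
          ∑ n ∈ Finset.Icc 1 ⌊x⌋₊, ‖a n‖ * (n : ℝ) ^ (-(3 / 2) : ℝ) :=
      add_le_add (mul_le_mul_of_nonneg_left hS1 (inv_nonneg.mpr hδ.le)) hS2
    _ = 3 * C * (∫ t in (1 : ℝ)..x, t ^ (1 / 2 : ℝ) * F t) +
        2 * C * (δ * x ^ (3 / 2 : ℝ) *
          ∑ n ∈ Finset.Icc 1 ⌊x⌋₊, ‖a n‖ * (n : ℝ) ^ (-(3 / 2) : ℝ)) := by
      field_simp
    _ ≤ 3 * C * (∫ t in (1 : ℝ)..x, t ^ (1 / 2 : ℝ) * F t) +
        3 * C * (δ * x ^ (3 / 2 : ℝ) *
          ∑ n ∈ Finset.Icc 1 ⌊x⌋₊, ‖a n‖ * (n : ℝ) ^ (-(3 / 2) : ℝ)) := by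
      gcongr
      norm_num
    _ = _ := by ring

end Pool.Agent.Lib.MP_bf61d2_nt.MV59
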